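import Pool.Agent.Hom3.PlOne

/-!
# Module PLN: the Prékopa-Leindler inequality in `ℝ^n`

PROOF.  Induction on `n`.  `n = 0`: the space has one point, of measure one.  `n + 1`: identify
`Fin (n+1) → ℝ` with `ℝ × (Fin n → ℝ)` by `MeasurableEquiv.piFinSuccAbove (fun _ => ℝ) 0`
(`volume_preserving_piFinSuccAbove`), so that `∫ f = ∫ F`, `F a = ∫ f (a, ·)` measurable
(`Measurable.lintegral_prod_right'`, `lintegral_prod`), the same for `g`, `h`.  For fixed `a`, `b`
the functions `f (a, ·)`, `g (b, ·)`, `h (θ a + (1-θ) b, ·)` satisfy the hypothesis in dimension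
`n`, so `F a ^ θ * G b ^ (1-θ) ≤ H (θ a + (1-θ) b)`; then `pl_one`.
-/

set_option autoImplicit false

open MeasureTheory Set
open scoped Pointwise ENNReal

noncomputable section

namespace Pool.Agent.Hom3

private theorem pln_split {n : ℕ} {f : (Fin (n + 1) → ℝ) → ℝ≥0∞} (hf : Measurable f) :
    ∫⁻ x, f x = ∫⁻ a : ℝ, ∫⁻ y : Fin n → ℝ,
      f ((MeasurableEquiv.piFinSuccAbove (fun _ => ℝ) 0).symm (a, y)) := by
  have hmp := (volume_preserving_piFinSuccAbove (fun _ : Fin (n + 1) => ℝ) 0).symm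
  rw [← hmp.lintegral_comp hf, Measure.volume_eq_prod]
  exact lintegral_prod _ ((hf.comp (MeasurableEquiv.measurable _)).aemeasurable)

private theorem pln_comb {n : ℕ} (θ : ℝ) (a b : ℝ) (x y : Fin n → ℝ) :
    θ • (MeasurableEquiv.piFinSuccAbove (fun _ : Fin (n + 1) => ℝ) 0).symm (a, x) +
      (1 - θ) • (MeasurableEquiv.piFinSuccAbove (fun _ : Fin (n + 1) => ℝ) 0).symm (b, y) =
    (MeasurableEquiv.piFinSuccAbove (fun _ : Fin (n + 1) => ℝ) 0).symm
      (θ * a + (1 - θ) * b, θ • x + (1 - θ) • y) := by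
  ext i
  refine Fin.cases ?_ (fun j => ?_) i
  · rfl
  · rfl

theorem pl_n {n : ℕ} {f g h : (Fin n → ℝ) → ℝ≥0∞} (hf : Measurable f) (hg : Measurable g)
    (hh : Measurable h) {θ : ℝ} (h0 : 0 < θ) (h1 : θ < 1)
    (H : ∀ x y, f x ^ θ * g y ^ (1 - θ) ≤ h (θ • x + (1 - θ) • y)) :
    (∫⁻ x, f x) ^ θ * (∫⁻ x, g x) ^ (1 - θ) ≤ ∫⁻ x, h x := by
  induction n with
  | zero =>
    have hd : ∀ k : (Fin 0 → ℝ) → ℝ≥0∞, ∫⁻ x, k x = k default := by
      intro k
      rw [lintegral_unique]
      have : (volume : Measure (Fin 0 → ℝ)) univ = 1 := by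
        rw [volume_pi, Measure.pi_univ]
        simp
      rw [this, mul_one]
      exact congrArg k (Subsingleton.elim _ _)
    rw [hd, hd, hd]
    have := H default default
    rwa [Subsingleton.elim (θ • (default : Fin 0 → ℝ) + (1 - θ) • (default : Fin 0 → ℝ)) default]
      at this
  | succ n ih =>
    rw [pln_split hf, pln_split hg, pln_split hh]
    set e := (MeasurableEquiv.piFinSuccAbove (fun _ : Fin (n + 1) => ℝ) 0).symm with he
    have hme : Measurable e := MeasurableEquiv.measurable _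
    refine pl_one (hf.comp hme).lintegral_prod_right' (hg.comp hme).lintegral_prod_right'
      (hh.comp hme).lintegral_prod_right' h0 h1 fun a b => ?_
    refine ih (f := fun y => f (e (a, y))) (g := fun y => g (e (b, y)))
      (h := fun y => h (e (θ * a + (1 - θ) * b, y))) ?_ ?_ ?_ ?_
    · exact hf.comp (hme.comp measurable_prodMk_left)
    · exact hg.comp (hme.comp measurable_prodMk_left)
    · exact hh.comp (hme.comp measurable_prodMk_left)
    · intro x y
      have := H (e (a, x)) (e (b, y))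
      rwa [he, pln_comb] at this

end Pool.Agent.Hom3
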