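import Pool.Agent.Hom3.MainE

/-!
# All convex bodies: between `3 * 2^(d-1)` (symmetric) and `2^(d+1)`

`P` is the lifted body, `V` its section function, `M` its volume, `L` the volume of its part below
the height `0`.
* `nu_real`: `n M ≤ 2^d (2 M - L)`: integrate `∑ V (2 s - h i) ≤ 2^d V s` over `s > 0` and add
  `L / (2 V 0)` times the inequality for `s = 0`; log-concavity gives
  `∫_{x ≤ -h} V ≤ L V (-h) / V 0`.
* `nu_cap`: `-P / ν ⊆ P` gives `L ≥ (2 / (1 + ν))^(d+1) M / 2`: cut `P` at the median height `s` into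
  `A` (below) and `C` (above); `(2 / (1 + ν)) • (A / 2 - C / 2) ⊆ P` lies below the height `0`, and
  Brunn-Minkowski.
-/

set_option autoImplicit false

open MeasureTheory Set
open scoped Pointwise ENNReal

noncomputable section

namespace Pool.Agent.Hom3

/-! ### The real part -/

private theorem nu_rpow {x θ : ℝ} (hx : 0 ≤ x) : x ^ θ * x ^ (1 - θ) = x := by
  rw [← Real.rpow_add' hx (by ring_nf; norm_num)]
  ring_nf
  exact Real.rpow_one x

private theorem nu_lc {v : ℝ → ℝ} (v0 : ∀ s, 0 ≤ v s)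
    (vl : ∀ a b θ : ℝ, 0 < θ → θ < 1 → v a ^ θ * v b ^ (1 - θ) ≤ v (θ * a + (1 - θ) * b))
    {m h u : ℝ} (hh : m ≤ h) (hu : 0 ≤ u) : v m * v (h + u) ≤ v (m + u) * v h := by
  rcases hh.eq_or_lt with rfl | hlt
  · exact le_of_eq (mul_comm _ _)
  rcases hu.eq_or_lt with rfl | hult
  · simp
  have hD : 0 < h + u - m := by linarith
  have h0 : 0 < (h - m) / (h + u - m) := div_pos (by linarith) hD
  have h1 : (h - m) / (h + u - m) < 1 := by rw [div_lt_one hD]; linarith
  set θ := (h - m) / (h + u - m) with hθ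
  have e1 : θ * m + (1 - θ) * (h + u) = m + u := by
    rw [hθ]; field_simp; ring
  have e2 : (1 - θ) * m + (1 - (1 - θ)) * (h + u) = h := by
    rw [hθ]; field_simp; ring
  have i1 := vl m (h + u) θ h0 h1
  have i2 := vl m (h + u) (1 - θ) (by linarith) (by linarith)
  rw [e1] at i1
  rw [e2] at i2
  have e3 : 1 - (1 - θ) = θ := by ring
  rw [e3] at i2
  calc v m * v (h + u) = (v m ^ θ * v m ^ (1 - θ)) * (v (h + u) ^ θ * v (h + u) ^ (1 - θ)) := by
        rw [nu_rpow (v0 _), nu_rpow (v0 _)]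
    _ = (v m ^ θ * v (h + u) ^ (1 - θ)) * (v m ^ (1 - θ) * v (h + u) ^ θ) := by ring
    _ ≤ v (m + u) * v h := mul_le_mul i1 i2
        (mul_nonneg (Real.rpow_nonneg (v0 _) _) (Real.rpow_nonneg (v0 _) _)) (v0 _)

private theorem nu_shift_Iic (v : ℝ → ℝ) (h : ℝ) :
    ∫ x in Iic (0 : ℝ), v (x - h) = ∫ x in Iic (-h), v x := by
  rw [← integral_indicator measurableSet_Iic, ← integral_indicator measurableSet_Iic,
    ← integral_sub_right_eq_self ((Iic (-h)).indicator v) h]
  congr 1
  funext x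
  by_cases hx : x ≤ 0
  · rw [indicator_of_mem (show x ∈ Iic (0 : ℝ) from hx),
      indicator_of_mem (show x - h ∈ Iic (-h) from by show x - h ≤ -h; linarith)]
  · rw [indicator_of_notMem (show x ∉ Iic (0 : ℝ) from hx),
      indicator_of_notMem (show x - h ∉ Iic (-h) from fun h' => hx (by
        have : x - h ≤ -h := h'
        linarith))]

private theorem nu_shift_Ioi (v : ℝ → ℝ) (h : ℝ) :
    ∫ s in Ioi (0 : ℝ), v (2 * s - h) = 2⁻¹ * ∫ x in Ioi (-h), v x := by
  have e := integral_comp_mul_left_Ioi (fun x => v (x - h)) 0 (two_pos (α := ℝ))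
  rw [e, smul_eq_mul, mul_zero]
  congr 1
  rw [← integral_indicator measurableSet_Ioi, ← integral_indicator measurableSet_Ioi,
    ← integral_sub_right_eq_self ((Ioi (-h)).indicator v) h]
  congr 1
  funext x
  by_cases hx : 0 < x
  · rw [indicator_of_mem (show x ∈ Ioi (0 : ℝ) from hx),
      indicator_of_mem (show x - h ∈ Ioi (-h) from by show -h < x - h; linarith)]
  · rw [indicator_of_notMem (show x ∉ Ioi (0 : ℝ) from hx),
      indicator_of_notMem (show x - h ∉ Ioi (-h) from fun h' => hx (by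
        have : -h < x - h := h'
        linarith))]

theorem nu_real {n : ℕ} {K : ℝ} {v : ℝ → ℝ} (v0 : ∀ s, 0 ≤ v s) (vi : Integrable v)
    (vl : ∀ a b θ : ℝ, 0 < θ → θ < 1 → v a ^ θ * v b ^ (1 - θ) ≤ v (θ * a + (1 - θ) * b))
    (vp : 0 < v 0) {h : Fin n → ℝ} (h0 : ∀ i, 0 ≤ h i)
    (hs : ∀ s, ∑ i, v (2 * s - h i) ≤ K * v s) :
    (n : ℝ) * ∫ s, v s ≤ K * (2 * (∫ s, v s) - ∫ s in Iic (0 : ℝ), v s) := by
  set M := ∫ s, v s with hM
  set L := ∫ s in Iic (0 : ℝ), v s with hL
  have hsplit : ∀ x, ∫ s in Ioi x, v s = M - ∫ s in Iic x, v s := by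
    intro x
    have := integral_add_compl (μ := volume) (s := Iic x) measurableSet_Iic vi
    rw [compl_Iic] at this
    rw [hM]
    linarith
  have hΨ : ∀ i, (∫ s in Iic (-h i), v s) * v 0 ≤ L * v (-h i) := by
    intro i
    rw [← nu_shift_Iic v (h i), hL, ← integral_mul_const, ← integral_mul_const]
    refine setIntegral_mono_on ?_ ?_ measurableSet_Iic ?_
    · exact ((vi.comp_sub_right (h i)).mul_const _).integrableOn
    · exact (vi.mul_const _).integrableOn
    · intro x hx
      have hx' : x ≤ 0 := hx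
      have := nu_lc v0 vl (m := x - h i) (h := -h i) (u := h i) (by linarith) (h0 i)
      have e1 : -h i + h i = 0 := by ring
      have e2 : x - h i + h i = x := by ring
      rw [e1, e2] at this
      exact this
  have hint : ∑ i, (2⁻¹ * (M - ∫ s in Iic (-h i), v s)) ≤ K * (M - L) := by
    have c1 : ∀ i, Integrable fun s => v (2 * s - h i) := by
      intro i
      have := (vi.comp_sub_right (h i)).comp_mul_left' (R := 2) two_ne_zero
      simpa using this
    have c2 : ∫ s in Ioi (0 : ℝ), ∑ i, v (2 * s - h i) ≤ ∫ s in Ioi (0 : ℝ), K * v s := by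
      refine setIntegral_mono_on ?_ ?_ measurableSet_Ioi fun s _ => hs s
      · exact (integrable_finsetSum _ fun i _ => c1 i).integrableOn
      · exact (vi.const_mul _).integrableOn
    rw [integral_finsetSum _ (fun i _ => (c1 i).integrableOn), integral_const_mul,
      hsplit 0] at c2
    refine le_trans (le_of_eq ?_) c2
    refine Finset.sum_congr rfl fun i _ => ?_
    rw [nu_shift_Ioi, hsplit]
  have hzero : ∑ i, v (-h i) ≤ K * v 0 := by
    have := hs 0
    simpa using this
  have hLnn : 0 ≤ L := setIntegral_nonneg measurableSet_Iic fun s _ => v0 s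
  have key : (∑ i, ∫ s in Iic (-h i), v s) * v 0 ≤ L * (K * v 0) := by
    rw [Finset.sum_mul]
    refine (Finset.sum_le_sum fun i _ => hΨ i).trans ?_
    rw [← Finset.mul_sum]
    exact mul_le_mul_of_nonneg_left hzero hLnn
  have key2 : (∑ i, ∫ s in Iic (-h i), v s) ≤ L * K := by
    have : (∑ i, ∫ s in Iic (-h i), v s) * v 0 ≤ (L * K) * v 0 := by linarith [key]
    exact le_of_mul_le_mul_right this vp
  have e : ∑ i, (2⁻¹ * (M - ∫ s in Iic (-h i), v s)) =
      2⁻¹ * ((n : ℝ) * M - ∑ i, ∫ s in Iic (-h i), v s) := by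
    rw [← Finset.mul_sum, Finset.sum_sub_distrib, Finset.sum_const, Finset.card_univ,
      Fintype.card_fin, nsmul_eq_mul]
  rw [e] at hint
  nlinarith [hint, key2]

/-! ### Brunn-Minkowski in `W d × ℝ` -/

private def nuT {d : ℕ} (w : W (d + 1)) : W d × ℝ := (fun i => w i.succ, w 0)

private def nuI {d : ℕ} (z : W d × ℝ) : W (d + 1) := Fin.cons z.2 z.1

private theorem nuT_nuI {d : ℕ} (z : W d × ℝ) : nuT (nuI z) = z := by
  unfold nuT nuI
  ext <;> simp

private theorem nuI_nuT {d : ℕ} (w : W (d + 1)) : nuI (nuT w) = w := by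
  unfold nuT nuI
  funext i
  refine Fin.cases ?_ (fun j => ?_) i
  · simp
  · simp

private theorem nuT_mp {d : ℕ} : MeasurePreserving (nuT (d := d)) volume volume := by
  have h1 := volume_preserving_piFinSuccAbove (fun _ : Fin (d + 1) => ℝ) 0
  have h2 : MeasurePreserving (Prod.swap : ℝ × W d → W d × ℝ) volume volume :=
    Measure.measurePreserving_swap
  have h3 := h2.comp h1
  have e : (Prod.swap ∘ (MeasurableEquiv.piFinSuccAbove (fun _ : Fin (d + 1) => ℝ) 0) :
      W (d + 1) → W d × ℝ) = nuT := by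
    funext w
    unfold nuT
    ext
    · simp [MeasurableEquiv.piFinSuccAbove, Fin.insertNthEquiv]
      rfl
    · simp [MeasurableEquiv.piFinSuccAbove, Fin.insertNthEquiv]
  rw [e] at h3
  exact h3

private theorem nuT_pre {d : ℕ} {A : Set (W d × ℝ)} (hA : IsCompact A) :
    IsCompact (nuT ⁻¹' A) := by
  have e : nuT ⁻¹' A = nuI '' A := by
    ext w
    constructor
    · intro hw
      exact ⟨nuT w, hw, nuI_nuT w⟩
    · rintro ⟨z, hz, rfl⟩
      show nuT (nuI z) ∈ A
      rw [nuT_nuI]; exact hz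
  rw [e]
  refine hA.image ?_
  unfold nuI
  refine continuous_pi fun i => ?_
  refine Fin.cases ?_ (fun j => ?_) i
  · simp only [Fin.cons_zero]; fun_prop
  · simp only [Fin.cons_succ]; fun_prop

theorem nu_bm {d : ℕ} {A B : Set (W d × ℝ)} (hA : IsCompact A) (hB : IsCompact B) {θ : ℝ}
    (h0 : 0 < θ) (h1 : θ < 1) :
    (volume A).toReal ^ θ * (volume B).toReal ^ (1 - θ) ≤
      (volume (θ • A + (1 - θ) • B)).toReal := by
  have h2 := bm (nuT_pre hA) (nuT_pre hB) h0 h1
  have hC : IsCompact (θ • A + (1 - θ) • B) := (hA.smul θ).add (hB.smul (1 - θ))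
  have e : θ • (nuT ⁻¹' A) + (1 - θ) • (nuT ⁻¹' B) = nuT ⁻¹' (θ • A + (1 - θ) • B) := by
    ext w
    constructor
    · rintro ⟨_, ⟨a, ha, rfl⟩, _, ⟨b, hb, rfl⟩, rfl⟩
      exact ⟨θ • nuT a, ⟨nuT a, ha, rfl⟩, (1 - θ) • nuT b, ⟨nuT b, hb, rfl⟩, rfl⟩
    · rintro ⟨_, ⟨a, ha, rfl⟩, _, ⟨b, hb, rfl⟩, hw⟩
      refine ⟨θ • nuI a, ⟨nuI a, ?_, rfl⟩, (1 - θ) • nuI b, ⟨nuI b, ?_, rfl⟩, ?_⟩
      · show nuT (nuI a) ∈ A
        rw [nuT_nuI]; exact ha
      · show nuT (nuI b) ∈ B
        rw [nuT_nuI]; exact hb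
      · have e1 : nuI (θ • a + (1 - θ) • b) = θ • nuI a + (1 - θ) • nuI b := by
          unfold nuI
          funext i
          refine Fin.cases ?_ (fun j => ?_) i
          · simp
          · simp
        show θ • nuI a + (1 - θ) • nuI b = w
        rw [← e1, ← nuI_nuT w]
        congr 1
  rw [e, nuT_mp.measure_preimage hA.measurableSet.nullMeasurableSet,
    nuT_mp.measure_preimage hB.measurableSet.nullMeasurableSet,
    nuT_mp.measure_preimage hC.measurableSet.nullMeasurableSet] at h2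
  exact h2

/-! ### Volumes and sections -/

private theorem nu_sl_meas {d : ℕ} {P : Set (W d × ℝ)} (hPc : IsCompact P) :
    Measurable fun s => (volume (sl P s) : ℝ≥0∞) :=
  measurable_measure_prodMk_right hPc.measurableSet

private theorem nu_sl_int {d : ℕ} {P : Set (W d × ℝ)} (hPc : IsCompact P) :
    ∫⁻ s, volume (sl P s) = volume P := by
  rw [Measure.volume_eq_prod, Measure.prod_apply_symm hPc.measurableSet]
  rfl

/-- the section function of a compact set is integrable -/
theorem nu_V_int {d : ℕ} {P : Set (W d × ℝ)} (hPc : IsCompact P) : Integrable (V P) :=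
  integrable_toReal_of_lintegral_ne_top (nu_sl_meas hPc).aemeasurable (by
    rw [nu_sl_int hPc]; exact hPc.measure_lt_top.ne)

theorem nu_V_vol {d : ℕ} {P : Set (W d × ℝ)} (hPc : IsCompact P) :
    ∫ s, V P s = (volume P).toReal := by
  unfold V
  rw [integral_toReal (nu_sl_meas hPc).aemeasurable
    (Filter.Eventually.of_forall fun s => (sl_compact hPc s).measure_lt_top), nu_sl_int hPc]

private theorem nu_cut {d : ℕ} {P : Set (W d × ℝ)} (hPc : IsCompact P) {S : Set ℝ}
    (hS : IsClosed S) :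
    IsCompact (P ∩ {z | z.2 ∈ S}) ∧ (volume (P ∩ {z | z.2 ∈ S})).toReal = ∫ s in S, V P s := by
  have hc : IsCompact (P ∩ {z | z.2 ∈ S}) := hPc.inter_right (hS.preimage continuous_snd)
  refine ⟨hc, ?_⟩
  rw [← nu_V_vol hc, ← integral_indicator hS.measurableSet]
  congr 1
  funext s
  by_cases hs : s ∈ S
  · rw [indicator_of_mem hs]
    unfold V
    congr 2
    ext y
    exact ⟨fun h => h.1, fun h => ⟨h, hs⟩⟩
  · rw [indicator_of_notMem hs]
    unfold V
    have e : sl (P ∩ {z | z.2 ∈ S}) s = ∅ := by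
      ext y
      simp only [mem_empty_iff_false, iff_false]
      exact fun h => hs h.2
    rw [e, measure_empty, ENNReal.toReal_zero]

/-! ### The part below the height `0` -/

theorem nu_cap {d : ℕ} {P : Set (W d × ℝ)} (hP : Convex ℝ P) (hPc : IsCompact P) {ν : ℝ}
    (hν : 1 ≤ ν) (hPν : ∀ z ∈ P, (-(1 / ν)) • z ∈ P) :
    (2 / (1 + ν)) ^ (d + 1) * ((∫ s, V P s) / 2) ≤ ∫ s in Iic (0 : ℝ), V P s := by
  have hν0 : 0 < ν := by linarith
  have vi := nu_V_int hPc
  set M := ∫ s, V P s with hM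
  have vnn : ∀ s, 0 ≤ V P s := fun s => ENNReal.toReal_nonneg
  have hMnn : 0 ≤ M := integral_nonneg vnn
  -- the median height
  obtain ⟨R, hR⟩ := hPc.isBounded.subset_closedBall (0 : W d × ℝ)
  have hV0 : ∀ s, R < |s| → V P s = 0 := by
    intro s hs
    have e : sl P s = ∅ := by
      ext y
      simp only [mem_empty_iff_false, iff_false]
      intro hy
      have h1 := hR hy
      rw [mem_closedBall_zero_iff, Prod.norm_def] at h1
      have h2 : |s| ≤ R := (le_max_right _ _).trans h1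
      linarith
    unfold V
    rw [e, measure_empty, ENNReal.toReal_zero]
  have hcont : Continuous fun x => ∫ s in Iic x, V P s := by
    have e : ∀ x, ∫ s in Iic x, V P s = (∫ s in Iic (0 : ℝ), V P s) + ∫ s in (0 : ℝ)..x, V P s := by
      intro x
      have := intervalIntegral.integral_Iic_sub_Iic (vi.integrableOn (s := Iic 0))
        (vi.integrableOn (s := Iic x))
      linarith
    rw [funext e]
    exact continuous_const.add (intervalIntegral.continuous_primitive
      (fun a b => vi.intervalIntegrable) 0)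
  set T := |R| + 1 with hT
  have hTpos : 0 < T := by positivity
  have hlow : ∫ s in Iic (-T), V P s = 0 := by
    refine (setIntegral_congr_fun (g := fun _ => (0 : ℝ)) measurableSet_Iic fun s hs => ?_).trans
      (by simp)
    have h1 : s ≤ -T := hs
    refine hV0 s ?_
    rw [abs_of_neg (by linarith)]
    linarith [le_abs_self R]
  have hhigh : ∫ s in Iic T, V P s = M := by
    have h1 : ∫ s in Ioi T, V P s = 0 := by
      refine (setIntegral_congr_fun (g := fun _ => (0 : ℝ)) measurableSet_Ioi fun s hs => ?_).trans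
        (by simp)
      have h1 : T < s := hs
      refine hV0 s ?_
      rw [abs_of_pos (by linarith)]
      linarith [le_abs_self R]
    have h2 := integral_add_compl (μ := volume) (s := Iic T) measurableSet_Iic vi
    rw [compl_Iic] at h2
    linarith
  obtain ⟨s, -, hs⟩ : ∃ s ∈ Icc (-T) T, ∫ x in Iic s, V P x = M / 2 := by
    have := intermediate_value_Icc (by linarith : -T ≤ T) hcont.continuousOn
    exact this ⟨by rw [hlow]; linarith, by rw [hhigh]; linarith⟩
  have hs' : ∫ x in Ici s, V P x = M / 2 := by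
    have h2 := integral_add_compl (μ := volume) (s := Iic s) measurableSet_Iic vi
    rw [compl_Iic, ← integral_Ici_eq_integral_Ioi] at h2
    linarith
  obtain ⟨hAc, hAv⟩ := nu_cut hPc (isClosed_Iic (a := s))
  obtain ⟨hCc, hCv⟩ := nu_cut hPc (isClosed_Ici (a := s))
  obtain ⟨hLc, hLv⟩ := nu_cut hPc (isClosed_Iic (a := (0 : ℝ)))
  set A := P ∩ {z | z.2 ∈ Iic s} with hA
  set C := P ∩ {z | z.2 ∈ Ici s} with hC
  set L := P ∩ {z | z.2 ∈ Iic (0 : ℝ)} with hL
  rw [hs] at hAv
  rw [hs'] at hCv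
  rw [← hLv]
  have hfin : Module.finrank ℝ (W d × ℝ) = d + 1 := by simp
  have hHaar : (volume : Measure (W d × ℝ)).IsAddHaarMeasure := by
    rw [Measure.volume_eq_prod]
    infer_instance
  have hC' : IsCompact ((-1 : ℝ) • C) := hCc.smul _
  have hCv' : (volume ((-1 : ℝ) • C)).toReal = M / 2 := by
    rw [Measure.addHaar_smul]
    simp [hCv]
  have hbm := nu_bm hAc hC' (θ := 1 / 2) (by norm_num) (by norm_num)
  rw [hAv, hCv', nu_rpow (by linarith : 0 ≤ M / 2)] at hbm
  have hsub : (2 / (1 + ν)) • ((1 / 2 : ℝ) • A + (1 - 1 / 2 : ℝ) • ((-1 : ℝ) • C)) ⊆ L := by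
    rintro _ ⟨_, ⟨_, ⟨a, ha, rfl⟩, _, ⟨_, ⟨c, hc, rfl⟩, rfl⟩, rfl⟩, rfl⟩
    have e : (2 / (1 + ν)) • ((1 / 2 : ℝ) • a + (1 - 1 / 2 : ℝ) • (-1 : ℝ) • c) =
        (1 / (1 + ν)) • a + (ν / (1 + ν)) • (-(1 / ν)) • c := by
      rw [smul_add, smul_smul, smul_smul, smul_smul, smul_smul]
      congr 2
      · field_simp
      · field_simp; ring
    show (2 / (1 + ν)) • ((1 / 2 : ℝ) • a + (1 - 1 / 2 : ℝ) • (-1 : ℝ) • c) ∈ L
    rw [e]
    refine ⟨hP ha.1 (hPν c hc.1) (by positivity) (by positivity) (by field_simp), ?_⟩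
    show (1 / (1 + ν)) * a.2 + (ν / (1 + ν)) * (-(1 / ν) * c.2) ≤ 0
    have h1 : a.2 ≤ s := ha.2
    have h2 : s ≤ c.2 := hc.2
    have e2 : (1 / (1 + ν)) * a.2 + (ν / (1 + ν)) * (-(1 / ν) * c.2) = (a.2 - c.2) / (1 + ν) := by
      field_simp
      ring
    rw [e2]
    exact div_nonpos_of_nonpos_of_nonneg (by linarith) (by linarith)
  have h3 := ENNReal.toReal_mono hLc.measure_lt_top.ne (measure_mono (μ := volume) hsub)
  rw [Measure.addHaar_smul, hfin, abs_of_nonneg (by positivity), ENNReal.toReal_mul,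
    ENNReal.toReal_ofReal (by positivity)] at h3
  refine le_trans ?_ h3
  exact mul_le_mul_of_nonneg_left hbm (by positivity)

/-! ### The theorem -/

theorem nu_W {d n : ℕ} {K : Set (W d)} (hK : Convex ℝ K)
    (hKi : (interior K).Nonempty) {ν : ℝ} (hν : 1 ≤ ν) (hKν : ∀ y ∈ K, (-(1 / ν)) • y ∈ K)
    {c : Fin n → ℝ} {x : Fin n → W d} (hT : Tangent K c x) :
    (n : ℝ) ≤ 2 ^ (d + 1) - 4 ^ d / (1 + ν) ^ (d + 1) := by
  have hν0 : 0 < ν := by linarith
  rcases Nat.eq_zero_or_pos n with rfl | hn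
  · have h1 : (4 : ℝ) ^ d / (1 + ν) ^ (d + 1) ≤ 2 ^ (d + 1) := by
      rw [div_le_iff₀ (by positivity)]
      have h2 : (2 : ℝ) ^ (d + 1) ≤ (1 + ν) ^ (d + 1) :=
        pow_le_pow_left₀ (by norm_num) (by linarith) _
      calc (4 : ℝ) ^ d ≤ 4 ^ (d + 1) := pow_le_pow_right₀ (by norm_num) (Nat.le_succ d)
        _ = 2 ^ (d + 1) * 2 ^ (d + 1) := by rw [← mul_pow]; norm_num
        _ ≤ _ := mul_le_mul_of_nonneg_left h2 (by positivity)
    simpa using h1
  have hc : ∀ i, 0 < c i := hT.1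
  have hpos : ∀ i, 0 < 1 / c i := fun i => by have := hc i; positivity
  obtain ⟨ib, -, hib⟩ := Finset.exists_min_image (Finset.univ : Finset (Fin n))
    (fun i => 1 / c i) ⟨⟨0, hn⟩, Finset.mem_univ _⟩
  obtain ⟨ia, -, hia⟩ := Finset.exists_max_image (Finset.univ : Finset (Fin n))
    (fun i => 1 / c i) ⟨⟨0, hn⟩, Finset.mem_univ _⟩
  obtain ⟨P, f, t, hP, hPc, hPν, hPH, hq, hf, hup, hlo, hVm⟩ := body hK hKi hν hKν hT
    (m := 1 / c ib) (H := 1 / c ia) (hpos ib) (fun i => hib i (Finset.mem_univ i))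
    (fun i => hia i (Finset.mem_univ i)) hn
  have hsl : ∀ s, ∑ i, V P (2 * s - 1 / c i) ≤ 2 ^ d * V P s := fun s =>
    slice_ineq hP hPc (fun i => lift (c i) (x i)) hq f t hf hup hlo s
  have vi := nu_V_int hPc
  have vnn : ∀ s, 0 ≤ V P s := fun s => ENNReal.toReal_nonneg
  -- `V 0 > 0`
  have hV0 : 0 < V P 0 := by
    have hneg : 0 < V P (-(1 / ν) * (1 / c ib)) := by
      have hsub : (-(1 / ν)) • sl P (1 / c ib) ⊆ sl P (-(1 / ν) * (1 / c ib)) := by
        rintro _ ⟨y, hy, rfl⟩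
        have h2 := hPν _ hy
        exact h2
      have h3 := ENNReal.toReal_mono (sl_compact hPc _).measure_lt_top.ne
        (measure_mono (μ := volume) hsub)
      rw [Measure.addHaar_smul, ENNReal.toReal_mul, ENNReal.toReal_ofReal (abs_nonneg _)] at h3
      refine lt_of_lt_of_le ?_ h3
      refine mul_pos (abs_pos.2 (pow_ne_zero _ ?_)) hVm
      have : 0 < 1 / ν := by positivity
      linarith
    have h4 := V_logc hP hPc (a := 1 / c ib) (b := -(1 / ν) * (1 / c ib)) (θ := 1 / (1 + ν))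
      (by positivity) (by rw [div_lt_one (by positivity)]; linarith)
    have e : 1 / (1 + ν) * (1 / c ib) + (1 - 1 / (1 + ν)) * (-(1 / ν) * (1 / c ib)) = 0 := by
      have := (hc ib).ne'
      field_simp
      ring
    rw [e] at h4
    exact lt_of_lt_of_le (mul_pos (Real.rpow_pos_of_pos hVm _) (Real.rpow_pos_of_pos hneg _)) h4
  have h1 := nu_real vnn vi (fun a b θ h0 h1 => V_logc hP hPc h0 h1) hV0
    (h := fun i => 1 / c i) (fun i => (hpos i).le) hsl
  have h2 := nu_cap hP hPc hν hPν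
  set M := ∫ s, V P s with hM
  set L := ∫ s in Iic (0 : ℝ), V P s with hL
  -- `M > 0`
  have hMpos : 0 < M := by
    have hLM : L ≤ M := setIntegral_le_integral vi (Filter.Eventually.of_forall vnn)
    rcases (integral_nonneg vnn : 0 ≤ M).eq_or_lt with h0 | h0
    · exfalso
      have h3 := (integral_eq_zero_iff_of_nonneg vnn vi).1 h0.symm
      have h4 : volume P = 0 := by
        have h5 := nu_V_vol hPc
        rw [← h0] at h5
        exact (ENNReal.toReal_eq_zero_iff _).1 h5.symm |>.resolve_right hPc.measure_lt_top.ne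
      -- a log-concave function, positive at two points, is positive between them
      have h6 : ∀ u ∈ Ioo (0 : ℝ) (1 / c ib), 0 < V P u := by
        intro u hu
        have hm := hpos ib
        have := V_logc hP hPc (a := 1 / c ib) (b := 0) (θ := u / (1 / c ib))
          (div_pos hu.1 hm) ((div_lt_one hm).2 hu.2)
        have e : u / (1 / c ib) * (1 / c ib) + (1 - u / (1 / c ib)) * 0 = u := by
          rw [mul_zero, add_zero, div_mul_cancel₀ _ hm.ne']
        rw [e] at this
        exact lt_of_lt_of_le (mul_pos (Real.rpow_pos_of_pos hVm _) (Real.rpow_pos_of_pos hV0 _))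
          this
      have h7 : volume (Ioo (0 : ℝ) (1 / c ib)) = 0 := by
        refine measure_mono_null ?_ (ae_iff.1 h3)
        intro u hu
        exact (h6 u hu).ne'
      rw [Real.volume_Ioo, sub_zero, ENNReal.ofReal_eq_zero] at h7
      exact absurd (hpos ib) (not_lt.2 h7)
    · exact h0
  have e1 : (4 : ℝ) ^ d / (1 + ν) ^ (d + 1) = 2 ^ d * ((2 / (1 + ν)) ^ (d + 1) / 2) := by
    rw [div_pow, pow_succ (2 : ℝ) d]
    have : (4 : ℝ) ^ d = 2 ^ d * 2 ^ d := by rw [← mul_pow]; norm_num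
    rw [this]
    field_simp
  have h3 : (n : ℝ) * M ≤ (2 ^ (d + 1) - 4 ^ d / (1 + ν) ^ (d + 1)) * M := by
    have h4 : (2 : ℝ) ^ d * ((2 / (1 + ν)) ^ (d + 1) * (M / 2)) ≤ 2 ^ d * L :=
      mul_le_mul_of_nonneg_left h2 (by positivity)
    rw [e1, pow_succ (2 : ℝ) d]
    nlinarith [h1, h4]
  exact le_of_mul_le_mul_right h3 hMpos

theorem nu_E {d n : ℕ} {K : Set (EuclideanSpace ℝ (Fin d))} (hK : Convex ℝ K)
    (hKi : (interior K).Nonempty) {o : EuclideanSpace ℝ (Fin d)} {ν : ℝ} (hν : 1 ≤ ν)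
    (hKν : ∀ y ∈ K, o - (1 / ν) • (y - o) ∈ K)
    {c : Fin n → ℝ} {x : Fin n → EuclideanSpace ℝ (Fin d)} (hT : Tangent K c x) :
    (n : ℝ) ≤ 2 ^ (d + 1) - 4 ^ d / (1 + ν) ^ (d + 1) := by
  let e : EuclideanSpace ℝ (Fin d) ≃L[ℝ] (Fin d → ℝ) := EuclideanSpace.equiv (Fin d) ℝ
  let h : EuclideanSpace ℝ (Fin d) ≃ₜ W d := (Homeomorph.subRight o).trans e.toHomeomorph
  have hh : ∀ y, h y = e (y - o) := fun y => rfl
  have hset : ∀ i, (fun y => e (x i + c i • o) + c i • y) '' (h '' K) =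
      e.toHomeomorph '' ((fun y => x i + c i • y) '' K) := by
    intro i
    rw [image_image, image_image]
    refine image_congr (fun y _ => ?_)
    show e (x i + c i • o) + c i • (e (y - o)) = e (x i + c i • y)
    rw [← map_smul, ← map_add]
    congr 1
    rw [smul_sub]
    abel
  refine nu_W (K := h '' K) ?_ ?_ hν ?_ (c := c) (x := fun i => e (x i + c i • o)) ?_
  · rintro _ ⟨y, hy, rfl⟩ _ ⟨z, hz, rfl⟩ p q hp hq hpq
    refine ⟨p • y + q • z, hK hy hz hp hq hpq, ?_⟩
    rw [hh, hh, hh, ← map_smul, ← map_smul, ← map_add]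
    congr 1
    have : o = p • o + q • o := by rw [← add_smul, hpq, one_smul]
    rw [smul_sub, smul_sub]
    nth_rewrite 1 [this]
    abel
  · rw [← h.image_interior]
    exact hKi.image _
  · rintro _ ⟨y, hy, rfl⟩
    refine ⟨o - (1 / ν) • (y - o), hKν y hy, ?_⟩
    rw [hh, hh, ← map_smul]
    congr 1
    rw [neg_smul]
    abel
  · refine ⟨hT.1, fun i j hij => ?_⟩
    obtain ⟨h1, h2⟩ := hT.2 i j hij
    simp only [hset]
    constructor
    · rw [← image_inter e.toHomeomorph.injective]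
      exact h1.image _
    · rw [← e.toHomeomorph.image_interior, ← e.toHomeomorph.image_interior,
        ← image_inter e.toHomeomorph.injective, h2, image_empty]

end Pool.Agent.Hom3
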