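import Pool.Agent.Hom3.PlN

/-!
# Module BM: the multiplicative Brunn-Minkowski inequality for compact sets

PROOF.  `pl_n` for the indicator functions of `A`, `B` and `θ • A + (1-θ) • B` (compact, hence
closed and measurable); the volumes are finite.
-/

set_option autoImplicit false

open MeasureTheory Set
open scoped Pointwise ENNReal

noncomputable section

namespace Pool.Agent.Hom3

theorem bm {d : ℕ} {A B : Set (W d)} (hA : IsCompact A) (hB : IsCompact B) {θ : ℝ} (h0 : 0 < θ)
    (h1 : θ < 1) :
    (volume A).toReal ^ θ * (volume B).toReal ^ (1 - θ) ≤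
      (volume (θ • A + (1 - θ) • B)).toReal := by
  have h1' : 0 < 1 - θ := by linarith
  have hC : IsCompact (θ • A + (1 - θ) • B) := (hA.smul θ).add (hB.smul (1 - θ))
  have h2 := pl_n (f := A.indicator 1) (g := B.indicator 1)
    (h := (θ • A + (1 - θ) • B).indicator 1)
    (measurable_one.indicator hA.measurableSet) (measurable_one.indicator hB.measurableSet)
    (measurable_one.indicator hC.measurableSet) h0 h1 (by
      intro x y
      by_cases hx : x ∈ A
      · by_cases hy : y ∈ B
        · have hz : θ • x + (1 - θ) • y ∈ θ • A + (1 - θ) • B :=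
            Set.add_mem_add (Set.smul_mem_smul_set hx) (Set.smul_mem_smul_set hy)
          rw [Set.indicator_of_mem hx, Set.indicator_of_mem hy, Set.indicator_of_mem hz]
          simp
        · rw [Set.indicator_of_notMem hy, ENNReal.zero_rpow_of_pos h1', mul_zero]
          exact bot_le
      · rw [Set.indicator_of_notMem hx, ENNReal.zero_rpow_of_pos h0, zero_mul]
        exact bot_le)
  rw [lintegral_indicator_one hA.measurableSet, lintegral_indicator_one hB.measurableSet,
    lintegral_indicator_one hC.measurableSet] at h2
  have h3 := ENNReal.toReal_mono hC.measure_lt_top.ne h2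
  rw [ENNReal.toReal_mul, ← ENNReal.toReal_rpow, ← ENNReal.toReal_rpow] at h3
  exact h3

end Pool.Agent.Hom3
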