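import Pool.Agent.Hom3.Defs

/-!
# Module BM1: Brunn-Minkowski on the line

PROOF.  For compact nonempty `A' ⊆ A`, `B' ⊆ B` let `a` be the maximum of `θ A'` and `b` the
minimum of `(1-θ) B'`.  The set `θ A' + (1-θ) B'` is contained in `C` and contains
`b + θ A'` and `a + (1-θ) B'`, which meet in the single point `a + b`; so
`vol C ≥ θ vol A' + (1-θ) vol B'` (`Real.volume_...smul` / `Measure.addHaar_smul`, translation
invariance; union of two compact sets meeting in a null set).  Inner regularity
(`MeasurableSet.measure_eq_iSup_isCompact`); the compact sets may be taken nonempty (enlarge by one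
point), because `A`, `B` are nonempty.
-/

set_option autoImplicit false

open MeasureTheory Set
open scoped Pointwise ENNReal

noncomputable section

namespace Pool.Agent.Hom3

/-- volume of a scaled and translated set -/
private theorem bm_vol {r : ℝ} (hr : 0 < r) (t : ℝ) (s : Set ℝ) :
    volume ((fun x => r * x + t) '' s) = ENNReal.ofReal r * volume s := by
  have h1 : (fun x : ℝ => r * x + t) '' s = (fun x => x + t) '' (r • s) := by
    ext y
    simp only [Set.mem_image, Set.mem_smul_set, smul_eq_mul]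
    constructor
    · rintro ⟨x, hx, rfl⟩
      exact ⟨r * x, ⟨x, hx, rfl⟩, rfl⟩
    · rintro ⟨z, ⟨x, hx, rfl⟩, rfl⟩
      exact ⟨x, hx, rfl⟩
  rw [h1, Set.image_add_right, measure_preimage_add_right, Measure.addHaar_smul]
  simp [abs_of_pos hr]

/-- the compact nonempty case -/
private theorem bm_cpt {K L C : Set ℝ} (hK : IsCompact K) (hL : IsCompact L) (hK0 : K.Nonempty)
    (hL0 : L.Nonempty) {θ : ℝ} (h0 : 0 < θ) (h1 : θ < 1)
    (hC : ∀ a ∈ K, ∀ b ∈ L, θ * a + (1 - θ) * b ∈ C) :
    ENNReal.ofReal θ * volume K + ENNReal.ofReal (1 - θ) * volume L ≤ volume C := by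
  have h1' : 0 < 1 - θ := by linarith
  obtain ⟨a, ha, hamax⟩ := hK.exists_isGreatest hK0
  obtain ⟨b, hb, hbmin⟩ := hL.exists_isLeast hL0
  set S1 : Set ℝ := (fun x => θ * x + (1 - θ) * b) '' K with hS1
  set S2 : Set ℝ := (fun y => (1 - θ) * y + θ * a) '' L with hS2
  have hv1 : volume S1 = ENNReal.ofReal θ * volume K := bm_vol h0 _ _
  have hv2 : volume S2 = ENNReal.ofReal (1 - θ) * volume L := bm_vol h1' _ _
  have hsub : S1 ∪ S2 ⊆ C := by
    rintro z (⟨x, hx, rfl⟩ | ⟨y, hy, rfl⟩)
    · exact hC x hx b hb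
    · have := hC a ha y hy
      rw [add_comm] at this
      exact this
  have hint : S1 ∩ S2 ⊆ {θ * a + (1 - θ) * b} := by
    rintro z ⟨⟨x, hx, hxz⟩, ⟨y, hy, hyz⟩⟩
    have h2 : θ * x ≤ θ * a := mul_le_mul_of_nonneg_left (hamax hx) h0.le
    have h3 : (1 - θ) * b ≤ (1 - θ) * y := mul_le_mul_of_nonneg_left (hbmin hy) h1'.le
    simp only at hxz hyz
    rw [Set.mem_singleton_iff]
    linarith
  have hdis : AEDisjoint volume S1 S2 := by
    refine le_antisymm ((measure_mono hint).trans ?_) bot_le
    simp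
  have hmeas : NullMeasurableSet S2 volume := by
    have : IsCompact S2 := hL.image (by fun_prop)
    exact this.measurableSet.nullMeasurableSet
  rw [← hv1, ← hv2, ← measure_union₀ hmeas hdis]
  exact measure_mono hsub

theorem bm_one {A B C : Set ℝ} (hA : MeasurableSet A) (hB : MeasurableSet B) (hA0 : A.Nonempty)
    (hB0 : B.Nonempty) {θ : ℝ} (h0 : 0 < θ) (h1 : θ < 1)
    (hC : ∀ a ∈ A, ∀ b ∈ B, θ * a + (1 - θ) * b ∈ C) :
    ENNReal.ofReal θ * volume A + ENNReal.ofReal (1 - θ) * volume B ≤ volume C := by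
  have h1' : 0 < 1 - θ := by linarith
  rcases eq_or_ne (volume C) ⊤ with hCt | hCt
  · rw [hCt]; exact le_top
  obtain ⟨a1, ha1⟩ := hA0
  obtain ⟨b1, hb1⟩ := hB0
  have hθ0 : ENNReal.ofReal θ ≠ 0 := by
    rw [Ne, ENNReal.ofReal_eq_zero, not_le]; exact h0
  have hθ1 : ENNReal.ofReal (1 - θ) ≠ 0 := by
    rw [Ne, ENNReal.ofReal_eq_zero, not_le]; exact h1'
  -- all compact subsets
  have key : ∀ K ⊆ A, IsCompact K → ∀ L ⊆ B, IsCompact L →
      ENNReal.ofReal θ * volume K + ENNReal.ofReal (1 - θ) * volume L ≤ volume C := by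
    intro K hKA hK L hLB hL
    have h2 := bm_cpt (hK.union (isCompact_singleton (x := a1)))
      (hL.union (isCompact_singleton (x := b1))) ⟨a1, Or.inr rfl⟩ ⟨b1, Or.inr rfl⟩ h0 h1
      (C := C) (by
        intro a ha b hb
        refine hC a ?_ b ?_
        · rcases ha with ha | ha
          · exact hKA ha
          · rw [Set.mem_singleton_iff] at ha; rw [ha]; exact ha1
        · rcases hb with hb | hb
          · exact hLB hb
          · rw [Set.mem_singleton_iff] at hb; rw [hb]; exact hb1)
    refine le_trans (add_le_add ?_ ?_) h2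
    · gcongr
      exact Set.subset_union_left
    · gcongr
      exact Set.subset_union_left
  -- measurable `A`
  have key2 : ∀ L ⊆ B, IsCompact L →
      ENNReal.ofReal θ * volume A + ENNReal.ofReal (1 - θ) * volume L ≤ volume C := by
    intro L hLB hL
    have hLt : ENNReal.ofReal (1 - θ) * volume L ≠ ⊤ :=
      ENNReal.mul_ne_top ENNReal.ofReal_ne_top hL.measure_lt_top.ne
    have hLC : ENNReal.ofReal (1 - θ) * volume L ≤ volume C := by
      have := key ∅ (Set.empty_subset _) isCompact_empty L hLB hL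
      simpa using this
    have h2 : volume A ≤ (volume C - ENNReal.ofReal (1 - θ) * volume L) / ENNReal.ofReal θ := by
      rw [hA.measure_eq_iSup_isCompact]
      refine iSup_le fun K => iSup_le fun hKA => iSup_le fun hK => ?_
      rw [ENNReal.le_div_iff_mul_le (Or.inl hθ0) (Or.inl ENNReal.ofReal_ne_top), mul_comm]
      exact ENNReal.le_sub_of_add_le_right hLt (key K hKA hK L hLB hL)
    rw [ENNReal.le_div_iff_mul_le (Or.inl hθ0) (Or.inl ENNReal.ofReal_ne_top), mul_comm] at h2
    calc ENNReal.ofReal θ * volume A + ENNReal.ofReal (1 - θ) * volume L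
        ≤ (volume C - ENNReal.ofReal (1 - θ) * volume L) + ENNReal.ofReal (1 - θ) * volume L :=
          add_le_add h2 le_rfl
      _ = volume C := tsub_add_cancel_of_le hLC
  have hAC : ENNReal.ofReal θ * volume A ≤ volume C := by
    have := key2 ∅ (Set.empty_subset _) isCompact_empty
    simpa using this
  have hAt : ENNReal.ofReal θ * volume A ≠ ⊤ := (hAC.trans_lt hCt.lt_top).ne
  have h2 : volume B ≤ (volume C - ENNReal.ofReal θ * volume A) / ENNReal.ofReal (1 - θ) := by
    rw [hB.measure_eq_iSup_isCompact]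
    refine iSup_le fun L => iSup_le fun hLB => iSup_le fun hL => ?_
    rw [ENNReal.le_div_iff_mul_le (Or.inl hθ1) (Or.inl ENNReal.ofReal_ne_top), mul_comm]
    refine ENNReal.le_sub_of_add_le_right hAt ?_
    rw [add_comm]
    exact key2 L hLB hL
  rw [ENNReal.le_div_iff_mul_le (Or.inl hθ1) (Or.inl ENNReal.ofReal_ne_top), mul_comm] at h2
  calc ENNReal.ofReal θ * volume A + ENNReal.ofReal (1 - θ) * volume B
      ≤ ENNReal.ofReal θ * volume A + (volume C - ENNReal.ofReal θ * volume A) :=
        add_le_add le_rfl h2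
    _ = volume C := add_tsub_cancel_of_le hAC

end Pool.Agent.Hom3
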