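import Pool.Agent.Hom3.Funcs

/-!
# Module BODY: the body containing the lifted configuration

`body`: with the `f i j`, `t i j` of `funcs` let (`β` large)
`P = {z | ‖z.1‖ ≤ β ∧ |z.2| ≤ H ∧ ∀ i ≠ j, F_ij (q j) ≤ F_ij z ≤ F_ij (q i)}`.
 Convex, closed and bounded, hence compact.  `q k ∈ P` if `β ≥ ‖(q k).1‖` for all `k`.
 ASYMMETRY: `F (q i) = - f u`, `F (q j) = - f u'`; `-(1/ν) u ∈ K` gives
 `F (q j) ≤ - f (-(1/ν) u) = (1/ν) f u = -(1/ν) F (q i)`, and in the same way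
 `-(1/ν) F (q j) ≤ F (q i)`.  So for `z ∈ P`: `F (-(1/ν) z) = -(1/ν) F z` lies between
 `-(1/ν) F (q i) ≥ F (q j)` and `-(1/ν) F (q j) ≤ F (q i)`; and `1/ν ≤ 1` for the other conditions.
 POSITIVITY: `F (q j) < 0 < F (q i)`: for `u0 ∈ interior K`, `0 ∈ interior K` too (`0` is a convex
 combination of `u0` and `-(1/ν) u0`, and `-(1/ν) u0 ∈ K`), so `f ≠ 0` takes both signs on `K`.
 Let `w = λ • (1/n) ∑ k, q k` with `λ = m / ((1/n) ∑ k, (q k).2) ∈ (0, 1]`; height `m`.
 `F_ij w = λ (1/n) ∑ k F_ij (q k)` is `< F_ij (q i)`: all terms are `≤ F_ij (q i)`, the term `k = j`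
 is `< 0 < F_ij (q i)`, and `0 < λ ≤ 1`; in the same way `> F_ij (q j)`.  If also
 `β > ‖w.1‖`, a neighbourhood of `w.1` is contained in `sl P m` (`|m| ≤ H`), so `0 < V P m`.
-/

set_option autoImplicit false

open MeasureTheory Set
open scoped Pointwise ENNReal

noncomputable section

namespace Pool.Agent.Hom3

private theorem bd_F_comb {d : ℕ} (f : W d →ₗ[ℝ] ℝ) (t : ℝ) (z w : W d × ℝ) (a b : ℝ) :
    F f t (a • z + b • w) = a * F f t z + b * F f t w := by
  simp only [F, Prod.fst_add, Prod.snd_add, Prod.smul_fst, Prod.smul_snd, map_add, map_smul,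
    smul_eq_mul]
  ring

private theorem bd_F_smul {d : ℕ} (f : W d →ₗ[ℝ] ℝ) (t : ℝ) (z : W d × ℝ) (a : ℝ) :
    F f t (a • z) = a * F f t z := by
  simp only [F, Prod.smul_fst, Prod.smul_snd, map_smul, smul_eq_mul]
  ring

private theorem bd_F_sum {d n : ℕ} (f : W d →ₗ[ℝ] ℝ) (t : ℝ) (q : Fin n → W d × ℝ) :
    F f t (∑ k, q k) = ∑ k, F f t (q k) := by
  simp only [F, Prod.fst_sum, Prod.snd_sum, map_sum, Finset.sum_sub_distrib, Finset.mul_sum]

private theorem bd_F_cont {d : ℕ} (f : W d →ₗ[ℝ] ℝ) (t : ℝ) : Continuous (F f t) := by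
  have := LinearMap.continuous_of_finiteDimensional f
  unfold F
  fun_prop

private theorem bd_zero {d : ℕ} {K : Set (W d)} (hK : Convex ℝ K) (hKi : (interior K).Nonempty)
    {ν : ℝ} (hν : 1 ≤ ν) (hKν : ∀ y ∈ K, (-(1 / ν)) • y ∈ K) : (0 : W d) ∈ interior K := by
  obtain ⟨u, hu⟩ := hKi
  have hν0 : 0 < ν := by linarith
  have h1 : (1 / (1 + ν)) • u + (ν / (1 + ν)) • ((-(1 / ν)) • u) ∈ interior K :=
    hK.combo_interior_self_mem_interior hu (hKν u (interior_subset hu)) (by positivity)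
      (by positivity) (by field_simp)
  have h2 : (1 / (1 + ν)) • u + (ν / (1 + ν)) • ((-(1 / ν)) • u) = 0 := by
    rw [smul_smul, ← add_smul]
    have : 1 / (1 + ν) + ν / (1 + ν) * -(1 / ν) = 0 := by field_simp; ring
    rw [this, zero_smul]
  rwa [h2] at h1

private theorem bd_sign {d : ℕ} {K : Set (W d)} (h0 : (0 : W d) ∈ interior K)
    {f : W d →ₗ[ℝ] ℝ} (hf : f ≠ 0) : (∃ u ∈ K, 0 < f u) ∧ (∃ u ∈ K, f u < 0) := by
  obtain ⟨y, hy⟩ : ∃ y, f y ≠ 0 := by
    by_contra hcon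
    push Not at hcon
    exact hf (LinearMap.ext hcon)
  have key : ∀ y : W d, 0 < f y → ∃ u ∈ K, 0 < f u := by
    intro y hy
    have hc : Filter.Tendsto (fun e : ℝ => e • y) (nhds 0) (nhds ((0 : ℝ) • y)) :=
      (continuous_id.smul continuous_const).tendsto 0
    rw [zero_smul] at hc
    have h1 := hc (mem_interior_iff_mem_nhds.1 h0)
    obtain ⟨ε, hε, hball⟩ := Metric.mem_nhds_iff.1 h1
    refine ⟨(ε / 2) • y, hball ?_, ?_⟩
    · rw [Metric.mem_ball, dist_zero_right, Real.norm_eq_abs, abs_of_pos (by positivity)]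
      linarith
    · rw [map_smul, smul_eq_mul]; positivity
  have key2 : ∀ y : W d, 0 < f y → ∃ u ∈ K, f u < 0 := by
    intro y hy
    have hc : Filter.Tendsto (fun e : ℝ => e • y) (nhds 0) (nhds ((0 : ℝ) • y)) :=
      (continuous_id.smul continuous_const).tendsto 0
    rw [zero_smul] at hc
    have h1 := hc (mem_interior_iff_mem_nhds.1 h0)
    obtain ⟨ε, hε, hball⟩ := Metric.mem_nhds_iff.1 h1
    refine ⟨(-(ε / 2)) • y, hball ?_, ?_⟩
    · rw [Metric.mem_ball, dist_zero_right, Real.norm_eq_abs, abs_neg, abs_of_pos (by positivity)]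
      linarith
    · rw [map_smul, smul_eq_mul]; nlinarith
  rcases lt_or_gt_of_ne hy with h | h
  · have h' : 0 < f (-y) := by rw [map_neg]; linarith
    exact ⟨key _ h', key2 _ h'⟩
  · exact ⟨key _ h, key2 _ h⟩

/-- the body -/
private def bdP {d n : ℕ} (c : Fin n → ℝ) (x : Fin n → W d) (f : Fin n → Fin n → W d →ₗ[ℝ] ℝ)
    (t : Fin n → Fin n → ℝ) (β H : ℝ) : Set (W d × ℝ) :=
  {z | ‖z.1‖ ≤ β ∧ |z.2| ≤ H ∧ ∀ i j, i ≠ j →
    F (f i j) (t i j) (lift (c j) (x j)) ≤ F (f i j) (t i j) z ∧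
    F (f i j) (t i j) z ≤ F (f i j) (t i j) (lift (c i) (x i))}

private theorem bdP_convex {d n : ℕ} (c : Fin n → ℝ) (x : Fin n → W d)
    (f : Fin n → Fin n → W d →ₗ[ℝ] ℝ) (t : Fin n → Fin n → ℝ) (β H : ℝ) :
    Convex ℝ (bdP c x f t β H) := by
  rintro z ⟨z1, z2, z3⟩ w ⟨w1, w2, w3⟩ a b ha hb hab
  refine ⟨?_, ?_, fun i j hij => ⟨?_, ?_⟩⟩
  · calc ‖(a • z + b • w).1‖ = ‖a • z.1 + b • w.1‖ := rfl
      _ ≤ ‖a • z.1‖ + ‖b • w.1‖ := norm_add_le _ _
      _ = a * ‖z.1‖ + b * ‖w.1‖ := by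
        rw [norm_smul, norm_smul, Real.norm_of_nonneg ha, Real.norm_of_nonneg hb]
      _ ≤ a * β + b * β := by gcongr
      _ = β := by rw [← add_mul, hab, one_mul]
  · calc |(a • z + b • w).2| = |a * z.2 + b * w.2| := rfl
      _ ≤ |a * z.2| + |b * w.2| := abs_add_le _ _
      _ = a * |z.2| + b * |w.2| := by rw [abs_mul, abs_mul, abs_of_nonneg ha, abs_of_nonneg hb]
      _ ≤ a * H + b * H := by gcongr
      _ = H := by rw [← add_mul, hab, one_mul]
  · rw [bd_F_comb]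
    have h1 := mul_le_mul_of_nonneg_left (z3 i j hij).1 ha
    have h2 := mul_le_mul_of_nonneg_left (w3 i j hij).1 hb
    have h3 : (a + b) * F (f i j) (t i j) (lift (c j) (x j)) =
      F (f i j) (t i j) (lift (c j) (x j)) := by rw [hab, one_mul]
    linarith
  · rw [bd_F_comb]
    have h1 := mul_le_mul_of_nonneg_left (z3 i j hij).2 ha
    have h2 := mul_le_mul_of_nonneg_left (w3 i j hij).2 hb
    have h3 : (a + b) * F (f i j) (t i j) (lift (c i) (x i)) =
      F (f i j) (t i j) (lift (c i) (x i)) := by rw [hab, one_mul]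
    linarith

private theorem bdP_compact {d n : ℕ} (c : Fin n → ℝ) (x : Fin n → W d)
    (f : Fin n → Fin n → W d →ₗ[ℝ] ℝ) (t : Fin n → Fin n → ℝ) (β H : ℝ) :
    IsCompact (bdP c x f t β H) := by
  refine Metric.isCompact_of_isClosed_isBounded ?_ ?_
  · have e : bdP c x f t β H = {z | ‖z.1‖ ≤ β} ∩ ({z | |z.2| ≤ H} ∩ ⋂ i, ⋂ j, ⋂ (_ : i ≠ j),
        ({z | F (f i j) (t i j) (lift (c j) (x j)) ≤ F (f i j) (t i j) z} ∩
        {z | F (f i j) (t i j) z ≤ F (f i j) (t i j) (lift (c i) (x i))})) := by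
      ext z
      simp only [bdP, mem_ofPred_eq, mem_inter_iff, mem_iInter]
    rw [e]
    refine (isClosed_le (by fun_prop) continuous_const).inter
      ((isClosed_le (by fun_prop) continuous_const).inter ?_)
    refine isClosed_iInter fun i => isClosed_iInter fun j => isClosed_iInter fun _ => ?_
    exact (isClosed_le continuous_const (bd_F_cont _ _)).inter
      (isClosed_le (bd_F_cont _ _) continuous_const)
  · refine (Metric.isBounded_closedBall (x := (0 : W d × ℝ)) (r := max β H)).subset ?_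
    rintro z ⟨z1, z2, -⟩
    rw [mem_closedBall_zero_iff, Prod.norm_def]
    exact max_le_max z1 z2

theorem body {d n : ℕ} {K : Set (W d)} (hK : Convex ℝ K) (hKi : (interior K).Nonempty)
    {ν : ℝ} (hν : 1 ≤ ν) (hKν : ∀ y ∈ K, (-(1 / ν)) • y ∈ K)
    {c : Fin n → ℝ} {x : Fin n → W d} (hT : Tangent K c x) {m H : ℝ} (hm : 0 < m)
    (h1 : ∀ i, m ≤ 1 / c i) (h2 : ∀ i, 1 / c i ≤ H) (hn : 1 ≤ n) :
    ∃ (P : Set (W d × ℝ)) (f : Fin n → Fin n → W d →ₗ[ℝ] ℝ) (t : Fin n → Fin n → ℝ),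
      Convex ℝ P ∧ IsCompact P ∧ (∀ z ∈ P, (-(1 / ν)) • z ∈ P) ∧ (∀ z ∈ P, |z.2| ≤ H) ∧
      (∀ i, lift (c i) (x i) ∈ P) ∧ (∀ i j, i ≠ j → f i j ≠ 0) ∧
      (∀ i j, i ≠ j → ∀ z ∈ P, F (f i j) (t i j) z ≤ F (f i j) (t i j) (lift (c i) (x i))) ∧
      (∀ i j, i ≠ j → ∀ z ∈ P, F (f i j) (t i j) (lift (c j) (x j)) ≤ F (f i j) (t i j) z) ∧
      0 < V P m := by
  obtain ⟨f, t, hft⟩ := funcs hK hKi hT
  have h0 := bd_zero hK hKi hν hKν
  have hν0 : 0 < ν := by linarith
  have hmH : m ≤ H := (h1 ⟨0, by omega⟩).trans (h2 ⟨0, by omega⟩)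
  have hpos : ∀ i j, i ≠ j → 0 < F (f i j) (t i j) (lift (c i) (x i)) ∧
      F (f i j) (t i j) (lift (c j) (x j)) < 0 := by
    intro i j hij
    obtain ⟨hf, -, -, h4, h5, -, -⟩ := hft i j hij
    obtain ⟨⟨u, hu, hu'⟩, ⟨w, hw, hw'⟩⟩ := bd_sign h0 hf
    have := h4 w hw
    have := h5 u hu
    constructor <;> linarith
  set S : ℝ := ∑ k, 1 / c k with hS
  have hnm : (n : ℝ) * m ≤ S := by
    have : ∑ _k : Fin n, m ≤ ∑ k, 1 / c k := Finset.sum_le_sum fun k _ => h1 k
    rw [Finset.sum_const, Finset.card_univ, Fintype.card_fin, nsmul_eq_mul] at this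
    exact this
  have hn' : (1 : ℝ) ≤ n := by exact_mod_cast hn
  have hSpos : 0 < S := by nlinarith
  set w : W d × ℝ := (m / S) • ∑ k, lift (c k) (x k) with hw
  have hw2 : w.2 = m := by
    rw [hw]
    simp only [Prod.smul_snd, Prod.snd_sum, lift, smul_eq_mul]
    rw [← hS]
    field_simp
  have hmS : 0 < m / S := by positivity
  have hmS' : (m / S) * n ≤ 1 := by
    rw [div_mul_eq_mul_div, div_le_one hSpos]; linarith
  obtain ⟨β, hβ1, hβ2⟩ : ∃ β : ℝ, ‖w.1‖ < β ∧ ∀ k, ‖(lift (c k) (x k)).1‖ ≤ β := by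
    refine ⟨‖w.1‖ + 1 + ∑ k, ‖(lift (c k) (x k)).1‖, ?_, ?_⟩
    · have : 0 ≤ ∑ k, ‖(lift (c k) (x k)).1‖ := Finset.sum_nonneg fun k _ => norm_nonneg _
      linarith
    · intro k
      have := Finset.single_le_sum (f := fun k => ‖(lift (c k) (x k)).1‖)
        (fun k _ => norm_nonneg _) (Finset.mem_univ k)
      have h3 := norm_nonneg w.1
      linarith
  refine ⟨bdP c x f t β H, f, t, bdP_convex _ _ _ _ _ _, bdP_compact _ _ _ _ _ _, ?_, ?_, ?_, ?_,
    ?_, ?_, ?_⟩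
  · rintro z ⟨z1, z2, z3⟩
    have hν1 : 1 / ν ≤ 1 := by rw [div_le_one hν0]; exact hν
    have hν2 : 0 < 1 / ν := by positivity
    refine ⟨?_, ?_, fun i j hij => ?_⟩
    · rw [Prod.smul_fst, norm_smul, norm_neg, Real.norm_of_nonneg hν2.le]
      have := norm_nonneg z.1
      nlinarith
    · rw [Prod.smul_snd, smul_eq_mul, abs_mul, abs_neg, abs_of_pos hν2]
      have := abs_nonneg z.2
      nlinarith
    · obtain ⟨hf, -, -, h4, h5, ⟨u, hu, hu'⟩, ⟨u1, hu1, hu1'⟩⟩ := hft i j hij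
      have a1 := h5 _ (hKν u hu)
      have a2 := h4 _ (hKν u1 hu1)
      rw [map_smul, smul_eq_mul] at a1 a2
      obtain ⟨b1, b2⟩ := z3 i j hij
      rw [bd_F_smul]
      have c1 := mul_le_mul_of_nonneg_left b1 hν2.le
      have c2 := mul_le_mul_of_nonneg_left b2 hν2.le
      rw [hu'] at c2
      rw [hu1'] at c1
      constructor
      · linarith
      · linarith
  · rintro z ⟨-, z2, -⟩
    exact z2
  · intro k
    refine ⟨hβ2 k, ?_, fun i j hij => ?_⟩
    · have h3 : (lift (c k) (x k)).2 = 1 / c k := rfl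
      rw [h3, abs_of_nonneg (hm.le.trans (h1 k))]
      exact h2 k
    · obtain ⟨-, h4, h5, -⟩ := hft i j hij
      exact ⟨h5 k, h4 k⟩
  · exact fun i j hij => (hft i j hij).1
  · rintro i j hij z ⟨-, -, z3⟩
    exact (z3 i j hij).2
  · rintro i j hij z ⟨-, -, z3⟩
    exact (z3 i j hij).1
  · -- positivity
    have hFw : ∀ i j, i ≠ j → F (f i j) (t i j) (lift (c j) (x j)) < F (f i j) (t i j) w ∧
        F (f i j) (t i j) w < F (f i j) (t i j) (lift (c i) (x i)) := by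
      intro i j hij
      obtain ⟨p1, p2⟩ := hpos i j hij
      obtain ⟨-, h4, h5, -⟩ := hft i j hij
      set A := F (f i j) (t i j) (lift (c i) (x i)) with hA
      set B := F (f i j) (t i j) (lift (c j) (x j)) with hB
      have e1 : F (f i j) (t i j) w = (m / S) * ∑ k, F (f i j) (t i j) (lift (c k) (x k)) := by
        rw [hw, bd_F_smul, bd_F_sum]
      have e2 : ∑ k, F (f i j) (t i j) (lift (c k) (x k)) < ∑ _k : Fin n, A :=
        Finset.sum_lt_sum (fun k _ => h4 k) ⟨j, Finset.mem_univ j, by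
          show B < A
          linarith⟩
      have e3 : ∑ _k : Fin n, B < ∑ k, F (f i j) (t i j) (lift (c k) (x k)) :=
        Finset.sum_lt_sum (fun k _ => h5 k) ⟨i, Finset.mem_univ i, by
          show B < A
          linarith⟩
      simp only [Finset.sum_const, Finset.card_univ, Fintype.card_fin, nsmul_eq_mul] at e2 e3
      rw [e1]
      have e4 := mul_lt_mul_of_pos_left e2 hmS
      have e5 := mul_lt_mul_of_pos_left e3 hmS
      constructor
      · refine lt_of_le_of_lt ?_ e5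
        nlinarith
      · refine lt_of_lt_of_le e4 ?_
        nlinarith
    have hopen : IsOpen {y : W d | ‖y‖ < β ∧ ∀ i j, i ≠ j →
        F (f i j) (t i j) (lift (c j) (x j)) < F (f i j) (t i j) (y, m) ∧
        F (f i j) (t i j) (y, m) < F (f i j) (t i j) (lift (c i) (x i))} := by
      have e : {y : W d | ‖y‖ < β ∧ ∀ i j, i ≠ j →
          F (f i j) (t i j) (lift (c j) (x j)) < F (f i j) (t i j) (y, m) ∧
          F (f i j) (t i j) (y, m) < F (f i j) (t i j) (lift (c i) (x i))} =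
          {y | ‖y‖ < β} ∩ ⋂ i, ⋂ j, ⋂ (_ : i ≠ j),
          ({y | F (f i j) (t i j) (lift (c j) (x j)) < F (f i j) (t i j) (y, m)} ∩
          {y | F (f i j) (t i j) (y, m) < F (f i j) (t i j) (lift (c i) (x i))}) := by
        ext z
        simp only [mem_ofPred_eq, mem_inter_iff, mem_iInter]
      rw [e]
      have hc : ∀ i j, Continuous fun y : W d => F (f i j) (t i j) (y, m) := fun i j =>
        (bd_F_cont _ _).comp (by fun_prop)
      refine (isOpen_lt (by fun_prop) continuous_const).inter ?_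
      refine isOpen_iInter_of_finite fun i => isOpen_iInter_of_finite fun j =>
        isOpen_iInter_of_finite fun _ => ?_
      exact (isOpen_lt continuous_const (hc i j)).inter (isOpen_lt (hc i j) continuous_const)
    have hwm : w = (w.1, m) := by rw [← hw2]
    have hmem : w.1 ∈ {y : W d | ‖y‖ < β ∧ ∀ i j, i ≠ j →
        F (f i j) (t i j) (lift (c j) (x j)) < F (f i j) (t i j) (y, m) ∧
        F (f i j) (t i j) (y, m) < F (f i j) (t i j) (lift (c i) (x i))} := by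
      refine ⟨hβ1, fun i j hij => ?_⟩
      rw [← hwm]
      exact hFw i j hij
    have hvpos := hopen.measure_pos volume ⟨_, hmem⟩
    have hsub : {y : W d | ‖y‖ < β ∧ ∀ i j, i ≠ j →
        F (f i j) (t i j) (lift (c j) (x j)) < F (f i j) (t i j) (y, m) ∧
        F (f i j) (t i j) (y, m) < F (f i j) (t i j) (lift (c i) (x i))} ⊆
        sl (bdP c x f t β H) m := by
      rintro y ⟨y1, y2⟩
      refine ⟨y1.le, ?_, fun i j hij => ⟨(y2 i j hij).1.le, (y2 i j hij).2.le⟩⟩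
      show |m| ≤ H
      rw [abs_of_pos hm]; exact hmH
    have hfin : volume (sl (bdP c x f t β H) m) < ⊤ := by
      refine lt_of_le_of_lt (measure_mono ?_) (measure_closedBall_lt_top (x := (0 : W d)) (r := β))
      rintro y ⟨y1, -⟩
      rw [mem_closedBall_zero_iff]
      exact y1
    exact ENNReal.toReal_pos (hvpos.trans_le (measure_mono hsub)).ne' hfin.ne

end Pool.Agent.Hom3
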