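import Mathlib

/-!
# Pairwise touching homothets (MP_c1e66d_co): definitions

The internal work is done in `W d = Fin d → ℝ` (Lebesgue measure).
-/

set_option autoImplicit false

open MeasureTheory Set
open scoped Pointwise ENNReal

noncomputable section

namespace Pool.Agent.Hom3

/-- The sets `x i + c i • K` (`i < n`) are positive homothets of `K`, and any two different ones of
them are tangent: they meet, and their interiors are disjoint. -/
def Tangent {V : Type} [NormedAddCommGroup V] [NormedSpace ℝ V] (K : Set V) {n : ℕ}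
    (c : Fin n → ℝ) (x : Fin n → V) : Prop :=
  (∀ i, 0 < c i) ∧ ∀ i j, i ≠ j →
    ((fun y => x i + c i • y) '' K ∩ (fun y => x j + c j • y) '' K).Nonempty ∧
    interior ((fun y => x i + c i • y) '' K) ∩ interior ((fun y => x j + c j • y) '' K) = ∅

/-- the weight of a member whose ratio is `r` times smaller than the largest one; the smallest
member is `R` times smaller than the largest one -/
def wt (ν R r : ℝ) : ℝ :=
  if r ≤ 2 + 1 / ν then 1 - (r - 1) * (ν - 1) / (ν + 1) else max 0 ((R / ν + 2 - r) / (R - 1))

/-- Euclidean `d`-space with the maximum norm -/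
abbrev W (d : ℕ) : Type := Fin d → ℝ

/-- the slice of `P` at height `s` -/
def sl {d : ℕ} (P : Set (W d × ℝ)) (s : ℝ) : Set (W d) := {y | (y, s) ∈ P}

/-- the volume of the slice of `P` at height `s` -/
def V {d : ℕ} (P : Set (W d × ℝ)) (s : ℝ) : ℝ := (volume (sl P s)).toReal

/-- the affine functional `F (y, s) = f y - t s` -/
def F {d : ℕ} (f : W d →ₗ[ℝ] ℝ) (t : ℝ) (z : W d × ℝ) : ℝ := f z.1 - t * z.2

/-- the lifted point `(x / c, 1 / c)` of the homothet `x + c K` -/
def lift {d : ℕ} (c : ℝ) (x : W d) : W d × ℝ := ((1 / c) • x, 1 / c)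

end Pool.Agent.Hom3
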