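import Pool.Agent.Hom3.Sep

/-!
# Module FUNCS: the separating functionals of the lifted configuration

`funcs`: for `i ≠ j` take `f`, `t` from `sep` for the members `i` and `j`.  With
`q k = lift (c k) (x k)` and `F = F f t`: `F (q k) = (f (x k) - t) / c k`.
 * for all `u ∈ K`: `F (q i) ≥ - f u` and `F (q j) ≤ - f u`;
 * the members `i`, `j` meet: `p = x i + c i u = x j + c j u'` with `u, u' ∈ K`; `f p ≥ t` and
   `f p ≤ t`, so `f p = t` and `F (q i) = - f u`, `F (q j) = - f u'`;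
 * for every `k`, the members `k`, `i` meet (or are equal): `x k + c k u1 = x i + c i u2`, so
   `f (x k) + c k f u1 ≥ t`, `F (q k) ≥ - f u1 ≥ F (q j)`; in the same way with `j`:
   `F (q k) ≤ F (q i)`.
 So `F (q j) ≤ F (q k) ≤ F (q i)` for all `k`, `F (q j) ≤ - f u ≤ F (q i)` for all `u ∈ K`, with
 equality for some `u`, `u'` of `K`.
-/

set_option autoImplicit false

open MeasureTheory Set
open scoped Pointwise ENNReal

noncomputable section

namespace Pool.Agent.Hom3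

private lemma Funcs_F {d : ℕ} (f : W d →ₗ[ℝ] ℝ) (t c : ℝ) (x : W d) :
    F f t (lift c x) = (f x - t) / c := by
  simp only [F, lift, map_smul, smul_eq_mul]
  ring

/-- `t ≤ f x + c v` gives `-v ≤ F q` -/
private lemma Funcs_lo {d : ℕ} {f : W d →ₗ[ℝ] ℝ} {t c : ℝ} (hc : 0 < c) {x u : W d}
    (h : t ≤ f x + c * f u) : - f u ≤ F f t (lift c x) := by
  rw [Funcs_F, le_div_iff₀ hc]
  linarith [mul_comm c (f u)]

private lemma Funcs_up {d : ℕ} {f : W d →ₗ[ℝ] ℝ} {t c : ℝ} (hc : 0 < c) {x u : W d}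
    (h : f x + c * f u ≤ t) : F f t (lift c x) ≤ - f u := by
  rw [Funcs_F, div_le_iff₀ hc]
  linarith [mul_comm c (f u)]

private lemma Funcs_meet {d n : ℕ} {K : Set (W d)} {c : Fin n → ℝ} {x : Fin n → W d}
    (hT : Tangent K c x) {i j : Fin n} (h : i ≠ j) :
    ∃ u ∈ K, ∃ u' ∈ K, x i + c i • u = x j + c j • u' := by
  obtain ⟨p, ⟨u, hu, e1⟩, ⟨u', hu', e2⟩⟩ := (hT.2 i j h).1
  exact ⟨u, hu, u', hu', by simpa using e1.trans e2.symm⟩

theorem funcs {d n : ℕ} {K : Set (W d)} (hK : Convex ℝ K) (hKi : (interior K).Nonempty)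
    {c : Fin n → ℝ} {x : Fin n → W d} (hT : Tangent K c x) :
    ∃ (f : Fin n → Fin n → W d →ₗ[ℝ] ℝ) (t : Fin n → Fin n → ℝ), ∀ i j, i ≠ j →
      f i j ≠ 0 ∧
      (∀ k, F (f i j) (t i j) (lift (c k) (x k)) ≤ F (f i j) (t i j) (lift (c i) (x i))) ∧
      (∀ k, F (f i j) (t i j) (lift (c j) (x j)) ≤ F (f i j) (t i j) (lift (c k) (x k))) ∧
      (∀ u ∈ K, - f i j u ≤ F (f i j) (t i j) (lift (c i) (x i))) ∧
      (∀ u ∈ K, F (f i j) (t i j) (lift (c j) (x j)) ≤ - f i j u) ∧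
      (∃ u ∈ K, F (f i j) (t i j) (lift (c i) (x i)) = - f i j u) ∧
      (∃ u ∈ K, F (f i j) (t i j) (lift (c j) (x j)) = - f i j u) := by
  have key : ∀ i j : Fin n, ∃ (f : W d →ₗ[ℝ] ℝ) (t : ℝ), i ≠ j → f ≠ 0 ∧
      (∀ u ∈ K, t ≤ f (x i) + c i * f u) ∧ (∀ u ∈ K, f (x j) + c j * f u ≤ t) := by
    intro i j
    by_cases h : i = j
    · exact ⟨0, 0, fun h' => (h' h).elim⟩
    · obtain ⟨f, t, h1⟩ := sep hK hKi (hT.1 i) (hT.1 j) (x := x i) (y := x j) (hT.2 i j h).2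
      exact ⟨f, t, fun _ => h1⟩
  choose f t hft using key
  refine ⟨f, t, fun i j hij => ?_⟩
  obtain ⟨h0, h1, h2⟩ := hft i j hij
  have lo : ∀ u ∈ K, - f i j u ≤ F (f i j) (t i j) (lift (c i) (x i)) :=
    fun u hu => Funcs_lo (hT.1 i) (h1 u hu)
  have up : ∀ u ∈ K, F (f i j) (t i j) (lift (c j) (x j)) ≤ - f i j u :=
    fun u hu => Funcs_up (hT.1 j) (h2 u hu)
  obtain ⟨u0, hu0⟩ := hKi
  have hu0 : u0 ∈ K := interior_subset hu0
  refine ⟨h0, fun k => ?_, fun k => ?_, lo, up, ?_, ?_⟩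
  · by_cases hk : k = j
    · rw [hk]
      exact (up u0 hu0).trans (lo u0 hu0)
    · obtain ⟨u, hu, u', hu', e⟩ := Funcs_meet hT hk
      have e' := congrArg (f i j) e
      simp only [map_add, map_smul, smul_eq_mul] at e'
      have := h2 u' hu'
      exact (Funcs_up (hT.1 k) (u := u) (by linarith)).trans (lo u hu)
  · by_cases hk : k = i
    · rw [hk]
      exact (up u0 hu0).trans (lo u0 hu0)
    · obtain ⟨u, hu, u', hu', e⟩ := Funcs_meet hT hk
      have e' := congrArg (f i j) e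
      simp only [map_add, map_smul, smul_eq_mul] at e'
      have := h1 u' hu'
      exact (up u hu).trans (Funcs_lo (hT.1 k) (u := u) (by linarith))
  · obtain ⟨u, hu, u', hu', e⟩ := Funcs_meet hT hij
    have e' := congrArg (f i j) e
    simp only [map_add, map_smul, smul_eq_mul] at e'
    have := h2 u' hu'
    exact ⟨u, hu, le_antisymm (Funcs_up (hT.1 i) (by linarith)) (lo u hu)⟩
  · obtain ⟨u, hu, u', hu', e⟩ := Funcs_meet hT hij
    have e' := congrArg (f i j) e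
    simp only [map_add, map_smul, smul_eq_mul] at e'
    have := h1 u hu
    exact ⟨u', hu', le_antisymm (up u' hu') (Funcs_lo (hT.1 j) (by linarith))⟩

end Pool.Agent.Hom3
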