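import Pool.Agent.Hom3.MainW

/-!
# Module MAINE: the theorem in Euclidean space

`main_E`: the same in `EuclideanSpace ℝ (Fin d)` with any centre `o`: put
`K' = e '' (fun y => y - o) '' K` with `e = EuclideanSpace.equiv (Fin d) ℝ` (a continuous linear
equivalence), `x' i = e (x i + c i • o)`; `x' i + c i • K' = e '' (x i + c i • K)`; images under the
homeomorphism `e` commute with intersections and interiors.
-/

set_option autoImplicit false

open MeasureTheory Set
open scoped Pointwise ENNReal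

noncomputable section

namespace Pool.Agent.Hom3

theorem main_E {d n : ℕ} (hd : 1 ≤ d) {K : Set (EuclideanSpace ℝ (Fin d))} (hK : Convex ℝ K)
    (hKi : (interior K).Nonempty) {o : EuclideanSpace ℝ (Fin d)} {ν : ℝ} (hν : 1 ≤ ν)
    (hKν : ∀ y ∈ K, o - (1 / ν) • (y - o) ∈ K)
    {c : Fin n → ℝ} {x : Fin n → EuclideanSpace ℝ (Fin d)} (hT : Tangent K c x) {a b : ℝ}
    (ha : ∀ i, a ≤ c i) (hb : ∀ i, c i ≤ b) (hamem : ∃ i, c i = a) (hbmem : ∃ i, c i = b) :
    ∑ i, wt ν (b / a) (b / c i) ^ d ≤ 2 ^ d ∧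
      (ν = 1 → (n : ℝ) ≤ 2 ^ d * (3 / 2 - a / (2 * b))) := by
  let e : EuclideanSpace ℝ (Fin d) ≃L[ℝ] (Fin d → ℝ) := EuclideanSpace.equiv (Fin d) ℝ
  let h : EuclideanSpace ℝ (Fin d) ≃ₜ W d := (Homeomorph.subRight o).trans e.toHomeomorph
  have hh : ∀ y, h y = e (y - o) := fun y => rfl
  have hset : ∀ i, (fun y => e (x i + c i • o) + c i • y) '' (h '' K) =
      e.toHomeomorph '' ((fun y => x i + c i • y) '' K) := by
    intro i
    rw [image_image, image_image]
    refine image_congr (fun y _ => ?_)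
    show e (x i + c i • o) + c i • (e (y - o)) = e (x i + c i • y)
    rw [← map_smul, ← map_add]
    congr 1
    rw [smul_sub]
    abel
  refine main_W (K := h '' K) hd ?_ ?_ hν ?_ (c := c) (x := fun i => e (x i + c i • o)) ?_
    ha hb hamem hbmem
  · rintro _ ⟨y, hy, rfl⟩ _ ⟨z, hz, rfl⟩ p q hp hq hpq
    refine ⟨p • y + q • z, hK hy hz hp hq hpq, ?_⟩
    rw [hh, hh, hh, ← map_smul, ← map_smul, ← map_add]
    congr 1
    have : o = p • o + q • o := by rw [← add_smul, hpq, one_smul]
    rw [smul_sub, smul_sub]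
    nth_rewrite 1 [this]
    abel
  · rw [← h.image_interior]
    exact hKi.image _
  · rintro _ ⟨y, hy, rfl⟩
    refine ⟨o - (1 / ν) • (y - o), hKν y hy, ?_⟩
    rw [hh, hh, ← map_smul]
    congr 1
    rw [neg_smul]
    abel
  · refine ⟨hT.1, fun i j hij => ?_⟩
    obtain ⟨h1, h2⟩ := hT.2 i j hij
    simp only [hset]
    constructor
    · rw [← image_inter e.toHomeomorph.injective]
      exact h1.image _
    · rw [← e.toHomeomorph.image_interior, ← e.toHomeomorph.image_interior,
        ← image_inter e.toHomeomorph.injective, h2, image_empty]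

end Pool.Agent.Hom3
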