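import Mathlib

/-!
# Module REAL: a linear programming bound for log-concave section functions

PROOF.  (All integrals are over bounded intervals; `v` is even, nonnegative, nonincreasing on
`[0, ∞)`: for `0 ≤ a ≤ b`, `0 < b`: `a = θ b + (1-θ)(-b)`, `v a ≥ v b ^ θ * v (-b) ^ (1-θ) = v b`
(trivial for `a = b`); so it is bounded by `v 0` and interval integrable.)
Let `I = ∫ 0..H, v > 0`, `G u = ∫ u..H, v` for `0 ≤ u ≤ H`; `v = 0` beyond `H` in absolute value
(the values at `± H` do not matter).
(1) Integrate the hypothesis over `s ∈ [0, H]`: `∫ s in 0..H, v (2 s - h i) =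
 (1/2) ∫ -h i..2 H - h i, v = (1/2) (∫ 0..h i, v + I)` (`2 H - h i ≥ H`) `= (1/2)(2 I - G (h i))`;
 so `∑ i, (I - G (h i) / 2) ≤ M I`.
(2) The hypothesis for `s = m`, multiplied by `G m / (2 v m)`: `v (2 m - h i) ≥ v (h i)` because
 `|2 m - h i| ≤ h i`; and `G m * v (h i) ≥ G (h i) * v m`: for `u ≥ 0`,
 `v (m + u) * v (h i) ≥ v m * v (h i + u)` (log-concavity, `m + u` and `h i` lie between `m` and
 `h i + u` and have the same sum: `m + u = θ m + (1-θ) (h i + u)`, `h i = (1-θ) m + θ (h i + u)`);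
 integrate over `u`.  So `∑ i, G (h i) / 2 ≤ M G m / 2`.
(3) Add: `n I ≤ M (I + G m / 2)`, and `G m = I - ∫ 0..m, v ≤ I (1 - m / H)` (`v` nonincreasing).
-/

set_option autoImplicit false

open MeasureTheory Set

noncomputable section

namespace Pool.Agent.Hom3

private theorem rp_rpow {x θ : ℝ} (hx : 0 ≤ x) (_h0 : 0 < θ) (_h1 : θ < 1) :
    x ^ θ * x ^ (1 - θ) = x := by
  rw [← Real.rpow_add' hx (by ring_nf; norm_num)]
  ring_nf
  exact Real.rpow_one x

private theorem rp_anti {v : ℝ → ℝ} (v0 : ∀ s, 0 ≤ v s) (ve : ∀ s, v (-s) = v s)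
    (vl : ∀ a b θ : ℝ, 0 < θ → θ < 1 → v a ^ θ * v b ^ (1 - θ) ≤ v (θ * a + (1 - θ) * b))
    {a b : ℝ} (ha : 0 ≤ a) (hab : a ≤ b) : v b ≤ v a := by
  rcases hab.eq_or_lt with rfl | hlt
  · exact le_rfl
  · have hb : 0 < b := lt_of_le_of_lt ha hlt
    have h0 : 0 < (a + b) / (2 * b) := by positivity
    have h1 : (a + b) / (2 * b) < 1 := by
      rw [div_lt_one (by positivity)]; linarith
    have := vl b (-b) _ h0 h1
    rw [ve, rp_rpow (v0 b) h0 h1] at this
    have e : (a + b) / (2 * b) * b + (1 - (a + b) / (2 * b)) * -b = a := by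
      field_simp; ring
    rwa [e] at this

private theorem rp_lc {v : ℝ → ℝ} (v0 : ∀ s, 0 ≤ v s)
    (vl : ∀ a b θ : ℝ, 0 < θ → θ < 1 → v a ^ θ * v b ^ (1 - θ) ≤ v (θ * a + (1 - θ) * b))
    {m h u : ℝ} (hh : m ≤ h) (hu : 0 ≤ u) : v m * v (h + u) ≤ v (m + u) * v h := by
  rcases hh.eq_or_lt with rfl | hlt
  · exact le_of_eq (mul_comm _ _)
  rcases hu.eq_or_lt with rfl | hult
  · simp
  have hD : 0 < h + u - m := by linarith
  have h0 : 0 < (h - m) / (h + u - m) := div_pos (by linarith) hD
  have h1 : (h - m) / (h + u - m) < 1 := by rw [div_lt_one hD]; linarith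
  set θ := (h - m) / (h + u - m) with hθ
  have e1 : θ * m + (1 - θ) * (h + u) = m + u := by
    rw [hθ]; field_simp; ring
  have e2 : (1 - θ) * m + (1 - (1 - θ)) * (h + u) = h := by
    rw [hθ]; field_simp; ring
  have i1 := vl m (h + u) θ h0 h1
  have i2 := vl m (h + u) (1 - θ) (by linarith) (by linarith)
  rw [e1] at i1
  rw [e2] at i2
  have e3 : 1 - (1 - θ) = θ := by ring
  rw [e3] at i2
  calc v m * v (h + u) = (v m ^ θ * v m ^ (1 - θ)) * (v (h + u) ^ θ * v (h + u) ^ (1 - θ)) := by
        rw [rp_rpow (v0 _) h0 h1, rp_rpow (v0 _) h0 h1]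
    _ = (v m ^ θ * v (h + u) ^ (1 - θ)) * (v m ^ (1 - θ) * v (h + u) ^ θ) := by ring
    _ ≤ v (m + u) * v h := mul_le_mul i1 i2
        (mul_nonneg (Real.rpow_nonneg (v0 _) _) (Real.rpow_nonneg (v0 _) _)) (v0 _)

theorem real_part {n : ℕ} {v : ℝ → ℝ} (v0 : ∀ s, 0 ≤ v s) (ve : ∀ s, v (-s) = v s)
    (vl : ∀ a b θ : ℝ, 0 < θ → θ < 1 → v a ^ θ * v b ^ (1 - θ) ≤ v (θ * a + (1 - θ) * b))
    {m H : ℝ} (hm : 0 < m) (hmH : m ≤ H) (vH : ∀ s, H < |s| → v s = 0) (vm : 0 < v m)
    {h : Fin n → ℝ} (h1 : ∀ i, m ≤ h i) (h2 : ∀ i, h i ≤ H) {M : ℝ} (hM : 0 ≤ M)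
    (hs : ∀ s, ∑ i, v (2 * s - h i) ≤ M * v s) :
    (n : ℝ) ≤ M * (3 / 2 - m / (2 * H)) := by
  have hH : 0 < H := lt_of_lt_of_le hm hmH
  have anti : ∀ a b, 0 ≤ a → a ≤ b → v b ≤ v a := fun a b ha hab => rp_anti v0 ve vl ha hab
  -- integrability
  have hI0 : ∀ b, 0 ≤ b → IntervalIntegrable v volume 0 b := by
    intro b hb
    refine AntitoneOn.intervalIntegrable ?_
    intro x hx y hy hxy
    rw [uIcc_of_le hb] at hx
    exact anti x y hx.1 hxy
  have hI1 : ∀ b, 0 ≤ b → IntervalIntegrable v volume (-b) 0 := by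
    intro b hb
    refine MonotoneOn.intervalIntegrable ?_
    intro x hx y hy hxy
    rw [uIcc_of_le (by linarith)] at hx hy
    rw [← ve x, ← ve y]
    exact anti (-y) (-x) (by linarith [hy.2]) (by linarith)
  have hI2 : ∀ b, IntervalIntegrable v volume 0 b := by
    intro b
    rcases le_total 0 b with hb | hb
    · exact hI0 b hb
    · have := hI1 (-b) (by linarith)
      rw [neg_neg] at this
      exact this.symm
  have hI : ∀ a b, IntervalIntegrable v volume a b := fun a b => (hI2 a).symm.trans (hI2 b)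
  set I := ∫ s in (0 : ℝ)..H, v s with hIdef
  let J : ℝ → ℝ := fun b => ∫ s in (0 : ℝ)..b, v s
  have hJH : J H = I := rfl
  have hG : ∀ b, ∫ s in b..H, v s = I - J b := by
    intro b
    have := intervalIntegral.integral_add_adjacent_intervals (hI 0 b) (hI b H)
    show _ = (∫ s in (0 : ℝ)..H, v s) - ∫ s in (0 : ℝ)..b, v s
    linarith
  have hnn : ∀ a b, a ≤ b → 0 ≤ ∫ s in a..b, v s := fun a b hab =>
    intervalIntegral.integral_nonneg hab fun s _ => v0 s
  -- positivity of I, and the comparison J m ≥ (m / H) I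
  have hJm : m * v m ≤ J m := by
    have : ∫ s in (0 : ℝ)..m, v m ≤ ∫ s in (0 : ℝ)..m, v s :=
      intervalIntegral.integral_mono_on hm.le (by simp) (hI 0 m) fun s hs => anti s m hs.1 hs.2
    rw [intervalIntegral.integral_const, smul_eq_mul, sub_zero] at this
    exact this
  have hJm' : I - J m ≤ (H - m) * v m := by
    rw [← hG m]
    have : ∫ s in m..H, v s ≤ ∫ s in m..H, v m :=
      intervalIntegral.integral_mono_on hmH (hI m H) (by simp)
        fun s hs => anti m s hm.le hs.1
    rw [intervalIntegral.integral_const, smul_eq_mul] at this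
    exact this
  have hGm0 : 0 ≤ I - J m := by rw [← hG m]; exact hnn m H hmH
  have hIpos : 0 < I := by
    have : 0 < m * v m := mul_pos hm vm
    linarith
  have hcomp : m * I ≤ H * J m := by
    have e1 : m * (I - J m) ≤ m * ((H - m) * v m) := mul_le_mul_of_nonneg_left hJm' hm.le
    have e2 : (H - m) * (m * v m) ≤ (H - m) * J m :=
      mul_le_mul_of_nonneg_left hJm (by linarith)
    nlinarith
  -- (1)
  have s1 : ∀ i, (J (h i) + I) / 2 ≤ ∫ s in (0 : ℝ)..H, v (2 * s - h i) := by
    intro i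
    have hhi : 0 < h i := lt_of_lt_of_le hm (h1 i)
    rw [intervalIntegral.integral_comp_mul_sub (fun s => v s) (by norm_num : (2 : ℝ) ≠ 0)]
    have e1 : ∫ s in (2 * 0 - h i)..(2 * H - h i), v s =
        (∫ s in (-h i)..0, v s) + (∫ s in (0 : ℝ)..H, v s) + ∫ s in H..(2 * H - h i), v s := by
      rw [intervalIntegral.integral_add_adjacent_intervals (hI _ _) (hI _ _),
        intervalIntegral.integral_add_adjacent_intervals (hI _ _) (hI _ _)]
      simp
    have e2 : ∫ s in (-h i)..0, v s = J (h i) := by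
      have := intervalIntegral.integral_comp_neg (a := 0) (b := h i) (fun s => v s)
      rw [neg_zero] at this
      rw [← this]
      exact intervalIntegral.integral_congr fun s _ => ve s
    have e3 := hnn H (2 * H - h i) (by linarith [h2 i])
    rw [e1, e2, smul_eq_mul]
    linarith
  have s1i : ∀ i, IntervalIntegrable (fun s => v (2 * s - h i)) volume 0 H := by
    intro i
    have a1 := ((hI (2 * 0 - h i) (2 * H - h i)).comp_sub_right (h i)).comp_mul_left (c := 2)
    simpa using a1
  have s1s : ∑ i, (J (h i) + I) / 2 ≤ M * I := by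
    calc ∑ i, (J (h i) + I) / 2 ≤ ∑ i, ∫ s in (0 : ℝ)..H, v (2 * s - h i) :=
          Finset.sum_le_sum fun i _ => s1 i
      _ = ∫ s in (0 : ℝ)..H, ∑ i, v (2 * s - h i) :=
          (intervalIntegral.integral_finsetSum fun i _ => s1i i).symm
      _ ≤ ∫ s in (0 : ℝ)..H, M * v s :=
          intervalIntegral.integral_mono_on hH.le
            (by
              have := IntervalIntegrable.sum Finset.univ fun i _ => s1i i
              refine this.congr fun s _ => ?_
              simp)
            ((hI 0 H).const_mul M) fun s _ => hs s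
      _ = M * I := intervalIntegral.integral_const_mul _ _
  -- (2)
  have s2 : ∀ i, (I - J (h i)) * v m ≤ (I - J m) * v (2 * m - h i) := by
    intro i
    have a1 : (I - J (h i)) * v m ≤ (I - J m) * v (h i) := by
      rw [← hG (h i), ← hG m]
      have e1 : ∫ s in (h i)..H, v s = ∫ u in (0 : ℝ)..(H - h i), v (h i + u) := by
        rw [intervalIntegral.integral_comp_add_left (fun s => v s)]
        simp
      have e2 : ∫ s in m..H, v s = ∫ u in (0 : ℝ)..(H - m), v (m + u) := by
        rw [intervalIntegral.integral_comp_add_left (fun s => v s)]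
        simp
      have i1 : IntervalIntegrable (fun u => v (h i + u)) volume 0 (H - h i) := by
        have := (hI (h i) H).comp_add_left (h i)
        simpa using this
      have i2 : ∀ b, IntervalIntegrable (fun u => v (m + u)) volume 0 b := by
        intro b
        have := (hI m (m + b)).comp_add_left m
        simpa using this
      have e3 : ∫ u in (0 : ℝ)..(H - h i), v (m + u) ≤ ∫ u in (0 : ℝ)..(H - m), v (m + u) := by
        rw [← intervalIntegral.integral_add_adjacent_intervals (i2 (H - h i))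
          ((i2 (H - h i)).symm.trans (i2 (H - m)))]
        have : 0 ≤ ∫ u in (H - h i)..(H - m), v (m + u) :=
          intervalIntegral.integral_nonneg (by linarith [h1 i]) fun s _ => v0 _
        linarith
      calc (∫ s in (h i)..H, v s) * v m = ∫ u in (0 : ℝ)..(H - h i), v m * v (h i + u) := by
            rw [e1, intervalIntegral.integral_const_mul]; ring
        _ ≤ ∫ u in (0 : ℝ)..(H - h i), v (m + u) * v (h i) :=
            intervalIntegral.integral_mono_on (by linarith [h2 i]) (i1.const_mul _)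
              ((i2 _).mul_const _) fun u hu => rp_lc v0 vl (h1 i) hu.1
        _ = (∫ u in (0 : ℝ)..(H - h i), v (m + u)) * v (h i) :=
            intervalIntegral.integral_mul_const _ _
        _ ≤ (∫ s in m..H, v s) * v (h i) := by
            rw [e2]; exact mul_le_mul_of_nonneg_right e3 (v0 _)
    have a2 : v (h i) ≤ v (2 * m - h i) := by
      rcases le_total 0 (2 * m - h i) with hc | hc
      · exact anti _ _ hc (by linarith [h1 i])
      · rw [← ve (2 * m - h i)]
        exact anti _ _ (by linarith) (by linarith)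
    exact a1.trans (mul_le_mul_of_nonneg_left a2 hGm0)
  have s2s : ∑ i, (I - J (h i)) ≤ M * (I - J m) := by
    have a1 : (∑ i, (I - J (h i))) * v m ≤ (M * (I - J m)) * v m := by
      rw [Finset.sum_mul]
      calc ∑ i, (I - J (h i)) * v m ≤ ∑ i, (I - J m) * v (2 * m - h i) :=
            Finset.sum_le_sum fun i _ => s2 i
        _ = (I - J m) * ∑ i, v (2 * m - h i) := by rw [Finset.mul_sum]
        _ ≤ (I - J m) * (M * v m) := mul_le_mul_of_nonneg_left (hs m) hGm0
        _ = (M * (I - J m)) * v m := by ring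
    exact le_of_mul_le_mul_right a1 vm
  -- (3)
  have s3 : (n : ℝ) * I ≤ M * (I + (I - J m) / 2) := by
    have e1 : ∑ i : Fin n, ((J (h i) + I) / 2 + (I - J (h i)) / 2) = (n : ℝ) * I := by
      have : ∀ i : Fin n, (J (h i) + I) / 2 + (I - J (h i)) / 2 = I := fun i => by ring
      simp [this]
    have e2 : ∑ i : Fin n, (I - J (h i)) / 2 = (∑ i, (I - J (h i))) / 2 := by
      rw [Finset.sum_div]
    rw [← e1, Finset.sum_add_distrib, e2]
    linarith
  have s4 : M * (I + (I - J m) / 2) ≤ (M * (3 / 2 - m / (2 * H))) * I := by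
    have a1 : (m / H) * I ≤ J m := by
      rw [div_mul_eq_mul_div, div_le_iff₀ hH]; linarith
    have a2 : I + (I - J m) / 2 ≤ (3 / 2 - m / (2 * H)) * I := by
      have : (3 / 2 - m / (2 * H)) * I = I + (I - (m / H) * I) / 2 := by
        field_simp; ring
      rw [this]; linarith
    calc M * (I + (I - J m) / 2) ≤ M * ((3 / 2 - m / (2 * H)) * I) :=
          mul_le_mul_of_nonneg_left a2 hM
      _ = _ := by ring
  exact le_of_mul_le_mul_right (s3.trans s4) hIpos

end Pool.Agent.Hom3
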