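import Pool.Agent.Hom3.Defs

/-!
# Module SLICE: packing of the half-size copies in a slice

`q i ∈ P`, and for `i ≠ j` the functional `F_ij` attains its maximum over `P` at `q i` and its
minimum at `q j`.  Then `∑ V (2 s - height of q i) ≤ 2^d V s`.

PROOF.  `T i = {(1/2) (x_i + y) : y ∈ sl P (2 s - h_i)}`, `q i = (x_i, h_i)`.  By convexity
(`(1/2) (q i + (y, 2 s - h_i)) ∈ P` has height `s`) `T i ⊆ sl P s`.  `volume (T i) =
2^(-d) volume (sl P (2 s - h_i))` (`Measure.addHaar_smul`, translation invariance).  For `i ≠ j`: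
`F_ij ≥ (F_ij (q i) + F_ij (q j)) / 2 =: κ` at the points `(y, s)`, `y ∈ T i`, and `≤ κ` for
`y ∈ T j`; so `T i ∩ T j ⊆ {y | f_ij y = κ + t_ij s}`, a hyperplane, which has measure zero
(`f_ij ≠ 0`; `Measure.addHaar_affineSubspace`, or `Measure.addHaar_submodule` and a translation).
The sets `T i` are compact (the slices of a compact set are compact), hence measurable;
`measure_biUnion_finset₀` (pairwise a.e. disjoint) and `measure_mono`.
-/

set_option autoImplicit false

open MeasureTheory Set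
open scoped Pointwise ENNReal

noncomputable section

namespace Pool.Agent.Hom3

theorem sl_compact {d : ℕ} {P : Set (W d × ℝ)} (hPc : IsCompact P) (s : ℝ) :
    IsCompact (sl P s) := by
  have e : sl P s = Prod.fst '' (P ∩ {z | z.2 = s}) := by
    ext y
    constructor
    · intro hy
      exact ⟨(y, s), ⟨hy, rfl⟩, rfl⟩
    · rintro ⟨⟨y', s'⟩, ⟨hz, hs⟩, rfl⟩
      have : s' = s := hs
      subst this
      exact hz
  rw [e]
  refine IsCompact.image ?_ continuous_fst
  exact hPc.inter_right (isClosed_eq continuous_snd continuous_const)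

/-- the half-size copy -/
private def slT {d : ℕ} (P : Set (W d × ℝ)) (q : W d × ℝ) (s : ℝ) : Set (W d) :=
  (fun y => (1 / 2 : ℝ) • (q.1 + y)) '' sl P (2 * s - q.2)

private theorem slT_sub {d : ℕ} {P : Set (W d × ℝ)} (hP : Convex ℝ P) {q : W d × ℝ} (hq : q ∈ P)
    (s : ℝ) : slT P q s ⊆ sl P s := by
  rintro _ ⟨y, hy, rfl⟩
  have h := hP hq hy (by norm_num : (0 : ℝ) ≤ 1 / 2) (by norm_num : (0 : ℝ) ≤ 1 / 2) (by norm_num)
  have e : (1 / 2 : ℝ) • q + (1 / 2 : ℝ) • (y, 2 * s - q.2) = ((1 / 2 : ℝ) • (q.1 + y), s) := by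
    refine Prod.ext ?_ ?_
    · simp [smul_add]
    · simp; ring
  rw [e] at h
  exact h

private theorem slT_compact {d : ℕ} {P : Set (W d × ℝ)} (hPc : IsCompact P) (q : W d × ℝ)
    (s : ℝ) : IsCompact (slT P q s) :=
  (sl_compact hPc _).image (by fun_prop)

private theorem slT_vol {d : ℕ} (P : Set (W d × ℝ)) (q : W d × ℝ) (s : ℝ) :
    volume (slT P q s) = ENNReal.ofReal ((1 / 2) ^ d) * volume (sl P (2 * s - q.2)) := by
  have e : slT P q s = (fun y => (1 / 2 : ℝ) • q.1 + y) '' ((1 / 2 : ℝ) • sl P (2 * s - q.2)) := by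
    rw [← image_smul, image_image]
    unfold slT
    refine image_congr fun y _ => ?_
    rw [smul_add]
  rw [e, image_add_left, measure_preimage_add, Measure.addHaar_smul]
  congr 2
  rw [Module.finrank_fin_fun, abs_of_nonneg (by positivity)]

theorem slice_ineq {d n : ℕ} {P : Set (W d × ℝ)} (hP : Convex ℝ P) (hPc : IsCompact P)
    (q : Fin n → W d × ℝ) (hq : ∀ i, q i ∈ P) (f : Fin n → Fin n → W d →ₗ[ℝ] ℝ)
    (t : Fin n → Fin n → ℝ) (hf : ∀ i j, i ≠ j → f i j ≠ 0)
    (hup : ∀ i j, i ≠ j → ∀ z ∈ P, F (f i j) (t i j) z ≤ F (f i j) (t i j) (q i))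
    (hlo : ∀ i j, i ≠ j → ∀ z ∈ P, F (f i j) (t i j) (q j) ≤ F (f i j) (t i j) z) (s : ℝ) :
    ∑ i, V P (2 * s - (q i).2) ≤ 2 ^ d * V P s := by
  have hfin : ∀ s, volume (sl P s) ≠ ⊤ := fun s => (sl_compact hPc s).measure_lt_top.ne
  -- hyperplanes are null sets
  have hnull : ∀ i j, i ≠ j → ∀ κ : ℝ, volume {y : W d | f i j y = κ} = 0 := by
    intro i j hij κ
    by_cases hne : ∃ y0, f i j y0 = κ
    · obtain ⟨y0, hy0⟩ := hne
      have e : {y : W d | f i j y = κ} = (fun y => -y0 + y) ⁻¹' (LinearMap.ker (f i j) : Set (W d)) := by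
        ext y
        simp only [mem_ofPred_eq, mem_preimage, SetLike.mem_coe, LinearMap.mem_ker, map_add,
          map_neg, hy0]
        constructor <;> intro h <;> linarith
      rw [e, measure_preimage_add]
      refine Measure.addHaar_submodule volume _ ?_
      intro h
      exact hf i j hij (LinearMap.ker_eq_top.1 h)
    · have e : {y : W d | f i j y = κ} = ∅ := by
        ext y
        simp only [mem_ofPred_eq, mem_empty_iff_false, iff_false]
        exact fun h => hne ⟨y, h⟩
      rw [e, measure_empty]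
  have hup' : ∀ i j, i ≠ j → ∀ y ∈ slT P (q i) s,
      (F (f i j) (t i j) (q i) + F (f i j) (t i j) (q j)) / 2 ≤ f i j y - t i j * s := by
    rintro i j hij _ ⟨y, hy, rfl⟩
    have h := hlo i j hij _ hy
    simp only [F] at h ⊢
    rw [map_smul, map_add, smul_eq_mul]
    linarith
  have hlo' : ∀ i j, i ≠ j → ∀ y ∈ slT P (q j) s,
      f i j y - t i j * s ≤ (F (f i j) (t i j) (q i) + F (f i j) (t i j) (q j)) / 2 := by
    rintro i j hij _ ⟨y, hy, rfl⟩
    have h := hup i j hij _ hy
    simp only [F] at h ⊢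
    rw [map_smul, map_add, smul_eq_mul]
    linarith
  have hdisj : ∀ i j, i ≠ j → volume (slT P (q i) s ∩ slT P (q j) s) = 0 := by
    intro i j hij
    refine measure_mono_null ?_ (hnull i j hij
      ((F (f i j) (t i j) (q i) + F (f i j) (t i j) (q j)) / 2 + t i j * s))
    rintro y ⟨y1, y2⟩
    have a1 := hup' i j hij y y1
    have a2 := hlo' i j hij y y2
    simp only [mem_ofPred_eq]
    linarith
  have hsum : ∑ i, volume (slT P (q i) s) ≤ volume (sl P s) := by
    have h1 : volume (⋃ i ∈ (Finset.univ : Finset (Fin n)), slT P (q i) s) =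
        ∑ i, volume (slT P (q i) s) := by
      refine measure_biUnion_finset₀ ?_ fun i _ =>
        (slT_compact hPc (q i) s).measurableSet.nullMeasurableSet
      intro i _ j _ hij
      exact hdisj i j hij
    rw [← h1]
    refine measure_mono ?_
    refine iUnion₂_subset fun i _ => slT_sub hP (hq i) s
  have h2 : ∑ i, ENNReal.ofReal ((1 / 2) ^ d) * volume (sl P (2 * s - (q i).2)) ≤
      volume (sl P s) := by
    refine le_trans (le_of_eq ?_) hsum
    exact Finset.sum_congr rfl fun i _ => (slT_vol P (q i) s).symm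
  have h3 : ∑ i, (1 / 2 : ℝ) ^ d * V P (2 * s - (q i).2) ≤ V P s := by
    have h4 := ENNReal.toReal_mono (hfin s) h2
    rw [ENNReal.toReal_sum] at h4
    · refine le_trans (le_of_eq ?_) h4
      refine Finset.sum_congr rfl fun i _ => ?_
      rw [ENNReal.toReal_mul, ENNReal.toReal_ofReal (by positivity)]
      rfl
    · intro i _
      exact ENNReal.mul_ne_top ENNReal.ofReal_ne_top (hfin _)
  rw [← Finset.mul_sum] at h3
  have h5 : (2 : ℝ) ^ d * ((1 / 2) ^ d * ∑ i, V P (2 * s - (q i).2)) ≤ 2 ^ d * V P s :=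
    mul_le_mul_of_nonneg_left h3 (by positivity)
  rwa [← mul_assoc, ← mul_pow, show (2 : ℝ) * (1 / 2) = 1 by norm_num, one_pow, one_mul] at h5

end Pool.Agent.Hom3
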