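import Pool.Agent.Hom3.Bm
import Pool.Agent.Hom3.Slice

/-!
# Module VLOW: lower bounds for the slices

`V_low`: let `A = sl P m`, `v = 2 m - h`.
 * `h ≤ (2 + 1/ν) m` (then `-m/ν ≤ v ≤ m`): put `λ = (v + m/ν)/(m + m/ν) ∈ [0,1]`,
   `v = λ m + (1-λ)(-m/ν)`.  `sl P (-m/ν) ⊇ -(1/ν) A`, so
   `sl P v ⊇ λ A + (1-λ)(-(1/ν)) A = μ (θ A + (1-θ)(-A))`, `μ = λ + (1-λ)/ν > 0`, `θ = λ/μ`.
   `bm` with `A` and `-A` (equal volumes): `volume (θ A + (1-θ)(-A)) ≥ volume A`
   (trivial for `θ = 0` or `1`, that is for `λ ∈ {0,1}`), so `V v ≥ μ^d V m`, and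
   `μ = 1 - (1-λ)(1-1/ν) = 1 - (h/m - 1)(ν-1)/(ν+1)` because `1 - λ = (h/m - 1)/(1+1/ν)`.
 * otherwise (`m < h ≤ H`) let `μ = (H/ν + 2 m - h)/(H - m)`; nothing to do if `μ ≤ 0` (`d ≥ 1`).
   If `μ > 0`: `λ = ν μ = (H + ν v)/(H - m) ∈ (0,1)` (`λ < 1` because `v < -m/ν`), and
   `v = λ (-m/ν) + (1-λ)(-H/ν)`; `sl P (-H/ν)` contains a point `p` (it contains `-(1/ν) sl P H`),
   so `sl P v ⊇ λ (-(1/ν)) A + (1-λ) p`, whose volume is `(λ/ν)^d volume A`.
-/

set_option autoImplicit false

open MeasureTheory Set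
open scoped Pointwise ENNReal

noncomputable section

namespace Pool.Agent.Hom3

private lemma VLow_smul {d : ℕ} (a : ℝ) (A : Set (W d)) :
    (volume (a • A)).toReal = |a| ^ d * (volume A).toReal := by
  rw [Measure.addHaar_smul]
  rw [ENNReal.toReal_mul, ENNReal.toReal_ofReal (abs_nonneg _)]
  simp [abs_pow]

private lemma VLow_aff {d : ℕ} (a : ℝ) (p : W d) {A S : Set (W d)} (hS : IsCompact S)
    (h : ∀ y ∈ A, a • y + p ∈ S) :
    |a| ^ d * (volume A).toReal ≤ (volume S).toReal := by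
  rw [← VLow_smul]
  apply ENNReal.toReal_mono hS.measure_lt_top.ne
  calc volume (a • A) = volume ((fun z => -p + z) ⁻¹' (a • A)) := (measure_preimage_add _ _ _).symm
    _ ≤ volume S := by
      apply measure_mono
      intro z hz
      obtain ⟨y, hy, e⟩ := mem_smul_set.1 hz
      have h1 := h y hy
      have h2 : a • y + p = z := by
        rw [e]
        simp
      rwa [h2] at h1

private lemma VLow_two {d : ℕ} {a b : ℝ} (ha : 0 ≤ a) (hb : 0 ≤ b) (hab : 0 < a + b)
    {A S : Set (W d)} (hA : IsCompact A) (hS : IsCompact S)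
    (h : ∀ y ∈ A, ∀ y' ∈ A, a • y + (-b) • y' ∈ S) :
    (a + b) ^ d * (volume A).toReal ≤ (volume S).toReal := by
  rcases eq_or_lt_of_le ha with rfl | ha
  · have := VLow_aff (-b) (0 : W d) (A := A) hS (fun y hy => by simpa using h y hy y hy)
    rwa [abs_neg, abs_of_nonneg hb, ← zero_add b] at this
  rcases eq_or_lt_of_le hb with rfl | hb
  · have := VLow_aff a (0 : W d) (A := A) hS (fun y hy => by simpa using h y hy y hy)
    rwa [abs_of_pos ha, ← add_zero a] at this
  have h0 : 0 < a / (a + b) := by positivity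
  have h1 : a / (a + b) < 1 := by
    rw [div_lt_one hab]
    linarith
  have e1 : 1 - a / (a + b) = b / (a + b) := by
    field_simp
    ring
  have hnA : IsCompact (-A) := hA.neg
  have h2 := bm hA hnA h0 h1
  have e2 : (volume (-A)).toReal = (volume A).toReal := by
    rw [Measure.measure_neg]
  rw [e2] at h2
  have e3 : (volume A).toReal ^ (a / (a + b)) * (volume A).toReal ^ (1 - a / (a + b)) =
      (volume A).toReal := by
    rcases eq_or_lt_of_le (ENNReal.toReal_nonneg (a := volume A)) with h3 | h3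
    · rw [← h3, Real.zero_rpow h0.ne', zero_mul]
    · rw [← Real.rpow_add h3]
      simp
  rw [e3] at h2
  have h4 : (volume ((a + b) • ((a / (a + b)) • A + (1 - a / (a + b)) • -A))).toReal ≤
      (volume S).toReal := by
    apply ENNReal.toReal_mono hS.measure_lt_top.ne
    apply measure_mono
    rintro z hz
    obtain ⟨w, hw, rfl⟩ := mem_smul_set.1 hz
    obtain ⟨w1, hw1, w2, hw2, rfl⟩ := mem_add.1 hw
    obtain ⟨y, hy, rfl⟩ := mem_smul_set.1 hw1
    obtain ⟨y', hy', rfl⟩ := mem_smul_set.1 hw2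
    have h5 := h y hy (-y') hy'
    have h6 : (a + b) • ((a / (a + b)) • y + (1 - a / (a + b)) • y') = a • y + (-b) • -y' := by
      rw [e1, smul_add, smul_smul, smul_smul, smul_neg, neg_smul, neg_neg]
      congr 2
      · field_simp
      · field_simp
    rw [h6]
    exact h5
  rw [VLow_smul, abs_of_pos hab] at h4
  refine le_trans ?_ h4
  gcongr

private lemma VLow_comb {d : ℕ} {P : Set (W d × ℝ)} (hP : Convex ℝ P) {s t l : ℝ} (h0 : 0 ≤ l)
    (h1 : l ≤ 1) {y z : W d} (hy : y ∈ sl P s) (hz : z ∈ sl P t) {v : ℝ}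
    (hv : l * s + (1 - l) * t = v) : l • y + (1 - l) • z ∈ sl P v := by
  have h2 := hP hy hz h0 (by linarith : 0 ≤ 1 - l) (by ring)
  subst hv
  simpa [sl] using h2

private lemma VLow_neg {d : ℕ} {P : Set (W d × ℝ)} {ν : ℝ} (hs : ∀ z ∈ P, (-(1 / ν)) • z ∈ P)
    {s : ℝ} {y : W d} (hy : y ∈ sl P s) : (-(1 / ν)) • y ∈ sl P (-(1 / ν) * s) := by
  have h2 := hs _ hy
  simpa [sl] using h2

theorem V_low {d : ℕ} (hd : 1 ≤ d) {P : Set (W d × ℝ)} (hP : Convex ℝ P) (hPc : IsCompact P)
    {ν : ℝ} (hν : 1 ≤ ν) (hs : ∀ z ∈ P, (-(1 / ν)) • z ∈ P) {m H : ℝ} (hm : 0 < m)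
    (hH : (sl P H).Nonempty) {h : ℝ} (h1 : m ≤ h) (h2 : h ≤ H) :
    wt ν (H / m) (h / m) ^ d * V P m ≤ V P (2 * m - h) := by
  have hν0 : 0 < ν := by linarith
  unfold wt V
  split_ifs with hc
  · have hc' : h ≤ (2 + 1 / ν) * m := by rwa [div_le_iff₀ hm] at hc
    have hden : 0 < m + m / ν := by positivity
    set l := ((2 * m - h) + m / ν) / (m + m / ν) with hl
    have l0 : 0 ≤ l := by
      apply div_nonneg _ hden.le
      have : (2 + 1 / ν) * m = 2 * m + m / ν := by ring
      linarith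
    have l1 : l ≤ 1 := by
      rw [hl, div_le_one hden]
      linarith
    have e1 : 1 - (h / m - 1) * (ν - 1) / (ν + 1) = l + (1 - l) / ν := by
      rw [hl]
      field_simp
      ring
    have ev : l * m + (1 - l) * (-(1 / ν) * m) = 2 * m - h := by
      rw [hl]
      field_simp
      ring
    rw [e1]
    apply VLow_two l0 (div_nonneg (by linarith) hν0.le) _ (sl_compact hPc m) (sl_compact hPc _)
    · intro y hy y' hy'
      have h3 := VLow_comb hP l0 l1 hy (VLow_neg hs hy') ev
      have e2 : (1 - l) • (-(1 / ν)) • y' = (-((1 - l) / ν)) • y' := by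
        rw [smul_smul]
        congr 1
        ring
      rwa [e2] at h3
    · rcases eq_or_lt_of_le l0 with h3 | h3
      · rw [← h3]
        positivity
      · have : 0 ≤ (1 - l) / ν := div_nonneg (by linarith) hν0.le
        linarith
  · have hc' : (2 + 1 / ν) * m < h := by
      rw [not_le, lt_div_iff₀ hm] at hc
      exact hc
    have hmν : 0 < 1 / ν * m := by positivity
    have hHm : 0 < H - m := by nlinarith
    have e0 : (H / m / ν + 2 - h / m) / (H / m - 1) = (H / ν + 2 * m - h) / (H - m) := by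
      have : H / m - 1 = (H - m) / m := by field_simp
      rw [this]
      have hne : H - m ≠ 0 := hHm.ne'
      field_simp
    rw [e0]
    rcases le_or_gt ((H / ν + 2 * m - h) / (H - m)) 0 with hμ | hμ
    · rw [max_eq_left hμ, zero_pow (by omega), zero_mul]
      exact ENNReal.toReal_nonneg
    · rw [max_eq_right hμ.le]
      set μ := (H / ν + 2 * m - h) / (H - m) with hμd
      obtain ⟨p, hp⟩ := hH
      have l0 : 0 ≤ ν * μ := by positivity
      have l1 : ν * μ ≤ 1 := by
        rw [hμd, ← mul_div_assoc, div_le_one hHm]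
        have e1 : ν * (H / ν + 2 * m - h) = H - ν * (h - 2 * m) := by
          field_simp
          ring
        rw [e1]
        have e2 : m ≤ ν * (h - 2 * m) := by
          have : 1 / ν * m ≤ h - 2 * m := by linarith
          calc m = ν * (1 / ν * m) := by field_simp
            _ ≤ ν * (h - 2 * m) := by gcongr
        linarith
      have ev : (ν * μ) * (-(1 / ν) * m) + (1 - ν * μ) * (-(1 / ν) * H) = 2 * m - h := by
        rw [hμd]
        have hne : H - m ≠ 0 := hHm.ne'
        field_simp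
        ring
      have h3 := VLow_aff (-μ) ((1 - ν * μ) • (-(1 / ν)) • p) (A := sl P m)
        (sl_compact hPc (2 * m - h)) (fun y hy => by
          have h4 := VLow_comb hP l0 l1 (VLow_neg hs hy) (VLow_neg hs hp) ev
          have e2 : (ν * μ) • (-(1 / ν)) • y = (-μ) • y := by
            rw [smul_smul]
            congr 1
            field_simp
          rwa [e2] at h4)
      rwa [abs_neg, abs_of_pos hμ] at h3

end Pool.Agent.Hom3
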