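import Pool.Agent.Hom3.VLogc
import Pool.Agent.Hom3.VLow
import Pool.Agent.Hom3.Body
import Pool.Agent.Hom3.RealPart

/-!
# Module MAINW: the theorem in `W d` with centre `0`

PROOF.  `n ≥ 1` because of `hamem`.  `m = 1/b`, `H = 1/a`; `body` gives `P`, `f`, `t`; the height of
`lift (c i) (x i)` is `1 / c i`; `slice_ineq` with `s = m`; `V_low` (`sl P H` is nonempty: it
contains the lifted point of a member with `c i = a`), `H / m = b / a`, `(1/c i)/m = b / c i`; divide
by `V P m > 0`.  Second part (`ν = 1`): `real_part` with `v = V P`, `M = 2^d`, `V_logc`, `V_even`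
(`(-(1/1)) • z = -z`), `V P s = 0` for `|s| > H` (empty slice), `m / (2 H) = a / (2 b)`.
-/

set_option autoImplicit false

open MeasureTheory Set
open scoped Pointwise ENNReal

noncomputable section

namespace Pool.Agent.Hom3

theorem main_W {d n : ℕ} (hd : 1 ≤ d) {K : Set (W d)} (hK : Convex ℝ K)
    (hKi : (interior K).Nonempty) {ν : ℝ} (hν : 1 ≤ ν) (hKν : ∀ y ∈ K, (-(1 / ν)) • y ∈ K)
    {c : Fin n → ℝ} {x : Fin n → W d} (hT : Tangent K c x) {a b : ℝ}
    (ha : ∀ i, a ≤ c i) (hb : ∀ i, c i ≤ b) (hamem : ∃ i, c i = a) (hbmem : ∃ i, c i = b) :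
    ∑ i, wt ν (b / a) (b / c i) ^ d ≤ 2 ^ d ∧
      (ν = 1 → (n : ℝ) ≤ 2 ^ d * (3 / 2 - a / (2 * b))) := by
  obtain ⟨ia, hia⟩ := hamem
  obtain ⟨ib, hib⟩ := hbmem
  have hc : ∀ i, 0 < c i := hT.1
  have ha0 : 0 < a := hia ▸ hc ia
  have hb0 : 0 < b := hib ▸ hc ib
  have hn : 1 ≤ n := by
    have := ia.2
    omega
  obtain ⟨P, f, t, hP, hPc, hPν, hPH, hq, hf, hup, hlo, hVm⟩ := body hK hKi hν hKν hT
    (m := 1 / b) (H := 1 / a) (by positivity)
    (fun i => one_div_le_one_div_of_le (hc i) (hb i))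
    (fun i => one_div_le_one_div_of_le ha0 (ha i)) hn
  have hsl : ∀ s, ∑ i, V P (2 * s - 1 / c i) ≤ 2 ^ d * V P s := fun s =>
    slice_ineq hP hPc (fun i => lift (c i) (x i)) hq f t hf hup hlo s
  have hne : (sl P (1 / a)).Nonempty := by
    refine ⟨(lift (c ia) (x ia)).1, ?_⟩
    have h1 := hq ia
    show ((lift (c ia) (x ia)).1, 1 / a) ∈ P
    have h2 : ((lift (c ia) (x ia)).1, 1 / a) = lift (c ia) (x ia) := by
      rw [← hia]; rfl
    rw [h2]; exact h1
  constructor
  · have h1 : ∀ i, wt ν (b / a) (b / c i) ^ d * V P (1 / b) ≤ V P (2 * (1 / b) - 1 / c i) := by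
      intro i
      have h2 := V_low hd hP hPc hν hPν (m := 1 / b) (H := 1 / a) (by positivity) hne
        (h := 1 / c i) (one_div_le_one_div_of_le (hc i) (hb i))
        (one_div_le_one_div_of_le ha0 (ha i))
      have e1 : 1 / a / (1 / b) = b / a := by field_simp
      have e2 : 1 / c i / (1 / b) = b / c i := by
        have := (hc i).ne'
        field_simp
      rwa [e1, e2] at h2
    have h2 : (∑ i, wt ν (b / a) (b / c i) ^ d) * V P (1 / b) ≤ 2 ^ d * V P (1 / b) := by
      rw [Finset.sum_mul]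
      exact (Finset.sum_le_sum fun i _ => h1 i).trans (hsl (1 / b))
    exact le_of_mul_le_mul_right h2 hVm
  · intro hν1
    subst hν1
    have hPs : ∀ z ∈ P, -z ∈ P := by
      intro z hz
      have := hPν z hz
      simpa using this
    have h2 := real_part (v := V P) (fun s => ENNReal.toReal_nonneg) (V_even hPs)
      (fun a b θ h0 h1 => V_logc hP hPc h0 h1) (m := 1 / b) (H := 1 / a) (by positivity)
      (by
        refine one_div_le_one_div_of_le ha0 ?_
        rw [← hib]; exact ha ib) ?_ hVm (h := fun i => 1 / c i)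
      (fun i => one_div_le_one_div_of_le (hc i) (hb i))
      (fun i => one_div_le_one_div_of_le ha0 (ha i)) (M := 2 ^ d) (by positivity) hsl
    · have e : 1 / b / (2 * (1 / a)) = a / (2 * b) := by field_simp
      rwa [e] at h2
    · intro s hs
      have e : sl P s = ∅ := by
        ext y
        simp only [mem_empty_iff_false, iff_false]
        intro hy
        exact absurd (hPH _ hy) (not_le.2 hs)
      simp [V, e]

end Pool.Agent.Hom3
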