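import Pool.Agent.Hom3.PlOneB

/-!
# Module PL1: the Prékopa-Leindler inequality on the line

PROOF.  Apply `pl_one_bdd` to `min f k`, `min g k` (`k : ℕ`, bound `M = k`) and the same `h`, and
let `k → ∞` (monotone convergence, `lintegral_iSup`; if `∫ g = 0` or `∫ f = 0` the left side is
`0`; otherwise the products converge: `ENNReal.Tendsto.mul`, `ENNReal.continuous_rpow_const`).
-/

set_option autoImplicit false

open MeasureTheory Set
open scoped Pointwise ENNReal

noncomputable section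

namespace Pool.Agent.Hom3

private theorem pl1_lim {f : ℝ → ℝ≥0∞} (hf : Measurable f) :
    Filter.Tendsto (fun k : ℕ => ∫⁻ x, min (f x) (k : ℝ≥0∞)) Filter.atTop
      (nhds (∫⁻ x, f x)) := by
  refine lintegral_tendsto_of_tendsto_of_monotone
    (fun k => (hf.min measurable_const).aemeasurable) ?_ ?_
  · refine Filter.Eventually.of_forall fun x => ?_
    intro i j hij
    have : (i : ℝ≥0∞) ≤ j := by exact_mod_cast hij
    exact min_le_min le_rfl this
  · refine Filter.Eventually.of_forall fun x => ?_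
    have h1 : Filter.Tendsto (fun k : ℕ => (k : ℝ≥0∞)) Filter.atTop (nhds ⊤) :=
      ENNReal.tendsto_nat_nhds_top
    have h2 : Filter.Tendsto (fun k : ℕ => min (f x) (k : ℝ≥0∞)) Filter.atTop
        (nhds (min (f x) ⊤)) := tendsto_const_nhds.min h1
    rwa [min_top_right] at h2

theorem pl_one {f g h : ℝ → ℝ≥0∞} (hf : Measurable f) (hg : Measurable g) (hh : Measurable h)
    {θ : ℝ} (h0 : 0 < θ) (h1 : θ < 1)
    (H : ∀ x y, f x ^ θ * g y ^ (1 - θ) ≤ h (θ * x + (1 - θ) * y)) :
    (∫⁻ x, f x) ^ θ * (∫⁻ x, g x) ^ (1 - θ) ≤ ∫⁻ x, h x := by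
  have h1' : 0 < 1 - θ := by linarith
  rcases eq_or_ne (∫⁻ x, f x) 0 with hf0 | hf0
  · rw [hf0, ENNReal.zero_rpow_of_pos h0, zero_mul]
    exact bot_le
  rcases eq_or_ne (∫⁻ x, g x) 0 with hg0 | hg0
  · rw [hg0, ENNReal.zero_rpow_of_pos h1', mul_zero]
    exact bot_le
  have hF : Filter.Tendsto (fun k : ℕ => (∫⁻ x, min (f x) (k : ℝ≥0∞)) ^ θ) Filter.atTop
      (nhds ((∫⁻ x, f x) ^ θ)) :=
    (ENNReal.continuous_rpow_const.tendsto _).comp (pl1_lim hf)
  have hG : Filter.Tendsto (fun k : ℕ => (∫⁻ x, min (g x) (k : ℝ≥0∞)) ^ (1 - θ)) Filter.atTop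
      (nhds ((∫⁻ x, g x) ^ (1 - θ))) :=
    (ENNReal.continuous_rpow_const.tendsto _).comp (pl1_lim hg)
  have hFG := ENNReal.Tendsto.mul hF
    (Or.inl (by
      intro hz
      rcases ENNReal.rpow_eq_zero_iff.1 hz with h2 | h2
      · exact hf0 h2.1
      · exact absurd h2.2 (not_lt.2 h0.le))) hG
    (Or.inl (by
      intro hz
      rcases ENNReal.rpow_eq_zero_iff.1 hz with h2 | h2
      · exact hg0 h2.1
      · exact absurd h2.2 (not_lt.2 h1'.le)))
  refine le_of_tendsto' hFG fun k => ?_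
  refine pl_one_bdd (hf.min measurable_const) (hg.min measurable_const) hh
    (ENNReal.natCast_ne_top k) (fun x => min_le_right _ _) (fun x => min_le_right _ _) h0 h1 ?_
  intro x y
  refine le_trans ?_ (H x y)
  exact mul_le_mul' (ENNReal.rpow_le_rpow (min_le_left _ _) h0.le)
    (ENNReal.rpow_le_rpow (min_le_left _ _) h1'.le)

end Pool.Agent.Hom3
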