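import Pool.Agent.Hom3.BmOne

/-!
# Module PL1B: the Prékopa-Leindler inequality on the line, bounded functions

PROOF.  Let `a = ⨆ x, f x`, `b = ⨆ x, g x`.
If `a = 0` or `b = 0` the left side is `0`.  Otherwise `0 < a, b < ⊤`.  For `0 < u < 1` the sets
`{f > u a}` and `{g > u b}` are nonempty and measurable, and
`{h > u a^θ b^(1-θ)}` contains `θ {f > u a} + (1-θ) {g > u b}`; so `bm_one` gives
`vol {h > u c} ≥ θ vol {f > u a} + (1-θ) vol {g > u b}`, `c = a^θ b^(1-θ)`.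
Integrate over `u ∈ (0,1)` with the layer cake formula (Tonelli for `1_{u a < f x}`, or
`lintegral_eq_lintegral_meas_lt` for the real valued functions `(f x).toReal`; `h` may be replaced
by `min h c`): `∫ h ≥ c (θ (∫ f)/a + (1-θ) (∫ g)/b) ≥ (∫ f)^θ (∫ g)^(1-θ)`, the last step by the
weighted inequality of the means (`ENNReal.geom_mean_le_arith_mean2_weighted` or
`Real.geom_mean_le_arith_mean2_weighted`) for `(∫ f)/a` and `(∫ g)/b`.
-/

set_option autoImplicit false

open MeasureTheory Set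
open scoped Pointwise ENNReal

noncomputable section

namespace Pool.Agent.Hom3

/-- layer cake for functions with finite values -/
private theorem pb_layer {F : ℝ → ℝ≥0∞} (hF : Measurable F) (hfin : ∀ x, F x ≠ ⊤) :
    ∫⁻ x, F x = ∫⁻ t in Ioi (0 : ℝ), volume {x | ENNReal.ofReal t < F x} := by
  have h1 : ∫⁻ x, F x = ∫⁻ x, ENNReal.ofReal (F x).toReal :=
    lintegral_congr fun x => (ENNReal.ofReal_toReal (hfin x)).symm
  rw [h1, lintegral_eq_lintegral_meas_lt volume (Filter.Eventually.of_forall fun x =>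
    ENNReal.toReal_nonneg) hF.ennreal_toReal.aemeasurable]
  refine setLIntegral_congr_fun measurableSet_Ioi fun t ht => ?_
  have ht0 : 0 ≤ t := le_of_lt ht
  have : {x | t < (F x).toReal} = {x | ENNReal.ofReal t < F x} := by
    ext x
    exact (ENNReal.ofReal_lt_iff_lt_toReal ht0 (hfin x)).symm
  simp only [this]

/-- weighted means in `ENNReal` -/
private theorem pb_mean {θ : ℝ} (h0 : 0 < θ) (h1 : θ < 1) (x y : ℝ≥0∞) :
    x ^ θ * y ^ (1 - θ) ≤ ENNReal.ofReal θ * x + ENNReal.ofReal (1 - θ) * y := by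
  have h2 : 0 < 1 - θ := by linarith
  by_cases hx : x = ⊤
  · subst hx
    rw [ENNReal.mul_top (by simpa using h0), top_add]
    exact le_top
  by_cases hy : y = ⊤
  · subst hy
    rw [ENNReal.mul_top (a := ENNReal.ofReal (1 - θ)) (by simpa using h2), add_top]
    exact le_top
  lift x to NNReal using hx
  lift y to NNReal using hy
  have h := NNReal.geom_mean_le_arith_mean2_weighted (Real.toNNReal θ) (Real.toNNReal (1 - θ)) x y
    (by
      rw [← Real.toNNReal_add h0.le h2.le]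
      simp)
  rw [Real.coe_toNNReal _ h0.le, Real.coe_toNNReal _ h2.le] at h
  rw [← ENNReal.coe_rpow_of_nonneg _ h0.le, ← ENNReal.coe_rpow_of_nonneg _ h2.le]
  unfold ENNReal.ofReal
  exact_mod_cast h

/-- the normalised case -/
private theorem pb_norm {F G K : ℝ → ℝ≥0∞} (hF : Measurable F) (hG : Measurable G)
    (hK : Measurable K) (hF1 : ∀ x, F x ≤ 1) (hG1 : ∀ x, G x ≤ 1) (hK1 : ∀ x, K x ≤ 1)
    (sF : ∀ u : ℝ≥0∞, u < 1 → ∃ x, u < F x) (sG : ∀ u : ℝ≥0∞, u < 1 → ∃ x, u < G x)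
    {θ : ℝ} (h0 : 0 < θ) (h1 : θ < 1)
    (H : ∀ x y, F x ^ θ * G y ^ (1 - θ) ≤ K (θ * x + (1 - θ) * y)) :
    ENNReal.ofReal θ * (∫⁻ x, F x) + ENNReal.ofReal (1 - θ) * (∫⁻ x, G x) ≤ ∫⁻ x, K x := by
  have hfin : ∀ {L : ℝ → ℝ≥0∞}, (∀ x, L x ≤ 1) → ∀ x, L x ≠ ⊤ := fun hL x =>
    ne_top_of_le_ne_top ENNReal.one_ne_top (hL x)
  rw [pb_layer hF (hfin hF1), pb_layer hG (hfin hG1), pb_layer hK (hfin hK1),
    ← lintegral_const_mul' _ _ ENNReal.ofReal_ne_top,
    ← lintegral_const_mul' _ _ ENNReal.ofReal_ne_top]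
  refine (le_lintegral_add _ _).trans ?_
  refine setLIntegral_mono' measurableSet_Ioi fun t ht => ?_
  rcases lt_or_ge t 1 with htl | htl
  · have htl' : ENNReal.ofReal t < 1 := by
      rw [← ENNReal.ofReal_one]
      exact (ENNReal.ofReal_lt_ofReal_iff one_pos).2 htl
    refine bm_one (measurableSet_lt measurable_const hF) (measurableSet_lt measurable_const hG)
      (sF _ htl') (sG _ htl') h0 h1 ?_
    intro a ha b hb
    have h2 : 0 < 1 - θ := by linarith
    have h3 : ENNReal.ofReal t = ENNReal.ofReal t ^ θ * ENNReal.ofReal t ^ (1 - θ) := by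
      rw [← ENNReal.rpow_add θ (1 - θ) (by simpa using ht) ENNReal.ofReal_ne_top]
      simp
    refine lt_of_lt_of_le ?_ (H a b)
    rw [h3]
    exact ENNReal.mul_lt_mul (ENNReal.rpow_lt_rpow ha h0) (ENNReal.rpow_lt_rpow hb h2)
  · have hempty : ∀ {L : ℝ → ℝ≥0∞}, (∀ x, L x ≤ 1) → {x | ENNReal.ofReal t < L x} = ∅ := by
      intro L hL
      refine eq_empty_iff_forall_notMem.2 fun x hx => ?_
      refine absurd (show ENNReal.ofReal t < L x from hx) (not_lt.2 ((hL x).trans ?_))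
      rw [← ENNReal.ofReal_one]
      exact ENNReal.ofReal_le_ofReal htl
    simp only [hempty hF1, hempty hG1, measure_empty, mul_zero, add_zero]
    exact zero_le

theorem pl_one_bdd {f g h : ℝ → ℝ≥0∞} (hf : Measurable f) (hg : Measurable g) (hh : Measurable h)
    {M : ℝ≥0∞} (hM : M ≠ ⊤) (hfM : ∀ x, f x ≤ M) (hgM : ∀ x, g x ≤ M)
    {θ : ℝ} (h0 : 0 < θ) (h1 : θ < 1)
    (H : ∀ x y, f x ^ θ * g y ^ (1 - θ) ≤ h (θ * x + (1 - θ) * y)) :
    (∫⁻ x, f x) ^ θ * (∫⁻ x, g x) ^ (1 - θ) ≤ ∫⁻ x, h x := by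
  have h2 : 0 < 1 - θ := by linarith
  set a : ℝ≥0∞ := ⨆ x, f x with ha
  set b : ℝ≥0∞ := ⨆ x, g x with hb
  have hfa : ∀ x, f x ≤ a := fun x => le_iSup f x
  have hgb : ∀ x, g x ≤ b := fun x => le_iSup g x
  have haM : a ≠ ⊤ := ne_top_of_le_ne_top hM (iSup_le hfM)
  have hbM : b ≠ ⊤ := ne_top_of_le_ne_top hM (iSup_le hgM)
  by_cases ha0 : a = 0
  · have : ∫⁻ x, f x = 0 := by
      have : ∀ x, f x = 0 := fun x => le_antisymm ((hfa x).trans ha0.le) zero_le
      simp [this]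
    rw [this, ENNReal.zero_rpow_of_pos h0, zero_mul]
    exact zero_le
  by_cases hb0 : b = 0
  · have : ∫⁻ x, g x = 0 := by
      have : ∀ x, g x = 0 := fun x => le_antisymm ((hgb x).trans hb0.le) zero_le
      simp [this]
    rw [this, ENNReal.zero_rpow_of_pos h2, mul_zero]
    exact zero_le
  set c : ℝ≥0∞ := a ^ θ * b ^ (1 - θ) with hc
  have hc0 : c ≠ 0 := by
    rw [hc]
    refine mul_ne_zero ?_ ?_
    · exact (ENNReal.rpow_pos (pos_iff_ne_zero.2 ha0) haM).ne'
    · exact (ENNReal.rpow_pos (pos_iff_ne_zero.2 hb0) hbM).ne'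
  have hcM : c ≠ ⊤ := by
    rw [hc]
    exact ENNReal.mul_ne_top (ENNReal.rpow_ne_top_of_nonneg h0.le haM)
      (ENNReal.rpow_ne_top_of_nonneg h2.le hbM)
  have key := pb_norm (F := fun x => f x / a) (G := fun x => g x / b)
    (K := fun x => min (h x / c) 1) (hf.div_const a) (hg.div_const b)
    ((hh.div_const c).min measurable_const)
    (fun x => ENNReal.div_le_of_le_mul (by rw [one_mul]; exact hfa x))
    (fun x => ENNReal.div_le_of_le_mul (by rw [one_mul]; exact hgb x))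
    (fun x => min_le_right _ _)
    (by
      intro u hu
      have : u * a < a := by
        calc u * a < 1 * a := (ENNReal.mul_lt_mul_iff_left ha0 haM).2 hu
          _ = a := one_mul a
      obtain ⟨x, hx⟩ := lt_iSup_iff.1 (this.trans_eq ha)
      exact ⟨x, (ENNReal.lt_div_iff_mul_lt (Or.inl ha0) (Or.inl haM)).2 hx⟩)
    (by
      intro u hu
      have : u * b < b := by
        calc u * b < 1 * b := (ENNReal.mul_lt_mul_iff_left hb0 hbM).2 hu
          _ = b := one_mul b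
      obtain ⟨x, hx⟩ := lt_iSup_iff.1 (this.trans_eq hb)
      exact ⟨x, (ENNReal.lt_div_iff_mul_lt (Or.inl hb0) (Or.inl hbM)).2 hx⟩)
    h0 h1
    (by
      intro x y
      have e1 : (f x / a) ^ θ * (g y / b) ^ (1 - θ) = (f x ^ θ * g y ^ (1 - θ)) / c := by
        rw [ENNReal.div_rpow_of_nonneg _ _ h0.le, ENNReal.div_rpow_of_nonneg _ _ h2.le, hc,
          div_eq_mul_inv, div_eq_mul_inv, div_eq_mul_inv, ENNReal.mul_inv]
        · ring
        · exact Or.inl (ENNReal.rpow_pos (pos_iff_ne_zero.2 ha0) haM).ne'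
        · exact Or.inl (ENNReal.rpow_ne_top_of_nonneg h0.le haM)
      refine le_min ?_ ?_
      · show (f x / a) ^ θ * (g y / b) ^ (1 - θ) ≤ h (θ * x + (1 - θ) * y) / c
        rw [e1]
        exact ENNReal.div_le_div_right (H x y) c
      · show (f x / a) ^ θ * (g y / b) ^ (1 - θ) ≤ 1
        rw [e1]
        refine ENNReal.div_le_of_le_mul ?_
        rw [one_mul, hc]
        exact mul_le_mul' (ENNReal.rpow_le_rpow (hfa x) h0.le)
          (ENNReal.rpow_le_rpow (hgb y) h2.le))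
  have k1 : ∫⁻ x, f x / a = (∫⁻ x, f x) / a := by
    simp only [div_eq_mul_inv]
    exact lintegral_mul_const' _ _ (ENNReal.inv_ne_top.2 ha0)
  have k2 : ∫⁻ x, g x / b = (∫⁻ x, g x) / b := by
    simp only [div_eq_mul_inv]
    exact lintegral_mul_const' _ _ (ENNReal.inv_ne_top.2 hb0)
  have k3 : ∫⁻ x, min (h x / c) 1 ≤ (∫⁻ x, h x) / c := by
    refine (lintegral_mono fun x => min_le_left _ _).trans ?_
    simp only [div_eq_mul_inv]
    exact (lintegral_mul_const' _ _ (ENNReal.inv_ne_top.2 hc0)).le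
  rw [k1, k2] at key
  have k4 := (pb_mean h0 h1 ((∫⁻ x, f x) / a) ((∫⁻ x, g x) / b)).trans (key.trans k3)
  rw [ENNReal.div_rpow_of_nonneg _ _ h0.le, ENNReal.div_rpow_of_nonneg _ _ h2.le] at k4
  have e2 : (∫⁻ x, f x) ^ θ / a ^ θ * ((∫⁻ x, g x) ^ (1 - θ) / b ^ (1 - θ)) =
      ((∫⁻ x, f x) ^ θ * (∫⁻ x, g x) ^ (1 - θ)) / c := by
    rw [hc, div_eq_mul_inv, div_eq_mul_inv, div_eq_mul_inv, ENNReal.mul_inv]
    · ring
    · exact Or.inl (ENNReal.rpow_pos (pos_iff_ne_zero.2 ha0) haM).ne'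
    · exact Or.inl (ENNReal.rpow_ne_top_of_nonneg h0.le haM)
  rw [e2] at k4
  have k5 := mul_le_mul_left k4 c
  rwa [ENNReal.div_mul_cancel hc0 hcM, ENNReal.div_mul_cancel hc0 hcM] at k5

end Pool.Agent.Hom3
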