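import Pool.Agent.Hom3.Defs

/-!
# Module SEP: separation of two touching homothets

PROOF.  `A = x + a K`, `B = y + b K` are convex with nonempty interior (images of `K` under
homeomorphisms), `interior A ∩ interior B = ∅`.  `geometric_hahn_banach_open_open` (or
`geometric_hahn_banach_open` with `interior A` and `B ⊆ closure (interior B)`) gives a continuous
functional `g` and `t` with `g < t` on `interior B`, `t < g` on `interior A`; by closure
(`Convex.closure_interior_eq_closure_of_nonempty_interior`, continuity) `g ≤ t` on `B` and
`t ≤ g` on `A`.  `g ≠ 0` because `interior A` and `interior B` are nonempty and strictly separated.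
-/

set_option autoImplicit false

open MeasureTheory Set
open scoped Pointwise ENNReal

noncomputable section

namespace Pool.Agent.Hom3

private lemma Sep_ne {d : ℕ} {K : Set (W d)} (hKi : (interior K).Nonempty) {a : ℝ} (ha : 0 < a)
    (x : W d) : (interior ((fun u => x + a • u) '' K)).Nonempty := by
  obtain ⟨u, hu⟩ := hKi
  let e : W d ≃ₜ W d := (Homeomorph.smulOfNeZero a ha.ne').trans (Homeomorph.addLeft x)
  have he : (e : W d → W d) = fun u => x + a • u := by
    funext u
    simp [e]
  refine ⟨e u, ?_⟩
  rw [← he, ← e.image_interior]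
  exact mem_image_of_mem _ hu

theorem sep {d : ℕ} {K : Set (W d)} (hK : Convex ℝ K) (hKi : (interior K).Nonempty)
    {a b : ℝ} (ha : 0 < a) (hb : 0 < b) {x y : W d}
    (h2 : interior ((fun u => x + a • u) '' K) ∩ interior ((fun u => y + b • u) '' K) = ∅) :
    ∃ (f : W d →ₗ[ℝ] ℝ) (t : ℝ), f ≠ 0 ∧ (∀ u ∈ K, t ≤ f x + a * f u) ∧
      (∀ u ∈ K, f y + b * f u ≤ t) := by
  set A := (fun u => x + a • u) '' K with hA
  set B := (fun u => y + b • u) '' K with hB
  have cA : Convex ℝ A := hK.affinity x a
  have cB : Convex ℝ B := hK.affinity y b
  have nA : (interior A).Nonempty := Sep_ne hKi ha x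
  have nB : (interior B).Nonempty := Sep_ne hKi hb y
  obtain ⟨g, t, h3, h4⟩ := geometric_hahn_banach_open_open cB.interior isOpen_interior cA.interior
    isOpen_interior (Set.disjoint_iff_inter_eq_empty.2 (by rw [inter_comm]; exact h2))
  refine ⟨g.toLinearMap, t, ?_, ?_, ?_⟩
  · intro h0
    obtain ⟨p, hp⟩ := nA
    obtain ⟨q, hq⟩ := nB
    have e1 : g p = 0 := by
      have := congrArg (fun l : W d →ₗ[ℝ] ℝ => l p) h0
      simpa using this
    have e2 : g q = 0 := by
      have := congrArg (fun l : W d →ₗ[ℝ] ℝ => l q) h0
      simpa using this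
    have := h3 q hq
    have := h4 p hp
    linarith
  · intro u hu
    have h5 : closure (interior A) ⊆ {z | t ≤ g z} :=
      closure_minimal (fun z hz => (h4 z hz).le) (isClosed_le continuous_const g.continuous)
    have h6 : x + a • u ∈ closure (interior A) := by
      rw [cA.closure_interior_eq_closure_of_nonempty_interior nA]
      exact subset_closure (mem_image_of_mem _ hu)
    have h7 := h5 h6
    simpa using h7
  · intro u hu
    have h5 : closure (interior B) ⊆ {z | g z ≤ t} :=
      closure_minimal (fun z hz => (h3 z hz).le) (isClosed_le g.continuous continuous_const)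
    have h6 : y + b • u ∈ closure (interior B) := by
      rw [cB.closure_interior_eq_closure_of_nonempty_interior nB]
      exact subset_closure (mem_image_of_mem _ hu)
    have h7 := h5 h6
    simpa using h7

end Pool.Agent.Hom3
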