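import Pool.Agent.Hom3.Bm
import Pool.Agent.Hom3.Slice

/-!
# Module VLOGC: the section function is log-concave and even

`V_logc`: `θ • sl P a + (1-θ) • sl P b ⊆ sl P (θ a + (1-θ) b)` by convexity, and `bm`
(`sl_compact`; the slice on the right is compact, so its volume is finite).
`V_even`: `sl P (-s) = - sl P s`, the reflection preserves the volume.
-/

set_option autoImplicit false

open MeasureTheory Set
open scoped Pointwise ENNReal

noncomputable section

namespace Pool.Agent.Hom3

theorem V_logc {d : ℕ} {P : Set (W d × ℝ)} (hP : Convex ℝ P) (hPc : IsCompact P) {a b θ : ℝ}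
    (h0 : 0 < θ) (h1 : θ < 1) :
    V P a ^ θ * V P b ^ (1 - θ) ≤ V P (θ * a + (1 - θ) * b) := by
  refine (bm (sl_compact hPc a) (sl_compact hPc b) h0 h1).trans ?_
  refine ENNReal.toReal_mono (sl_compact hPc _).measure_lt_top.ne (measure_mono ?_)
  rintro _ ⟨_, ⟨u, hu, rfl⟩, _, ⟨v, hv, rfl⟩, rfl⟩
  have h2 := hP (show ((u, a) : W d × ℝ) ∈ P from hu) (show ((v, b) : W d × ℝ) ∈ P from hv)
    h0.le (sub_nonneg.2 h1.le) (by ring)
  exact h2

theorem V_even {d : ℕ} {P : Set (W d × ℝ)} (hs : ∀ z ∈ P, -z ∈ P) (s : ℝ) :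
    V P (-s) = V P s := by
  have h1 : sl P (-s) = -sl P s := by
    ext y
    rw [Set.mem_neg]
    constructor
    · intro hy
      have h2 := hs _ (show ((y, -s) : W d × ℝ) ∈ P from hy)
      have h3 : -((y, -s) : W d × ℝ) = (-y, s) := by simp
      rw [h3] at h2
      exact h2
    · intro hy
      have h2 := hs _ (show ((-y, s) : W d × ℝ) ∈ P from hy)
      have h3 : -((-y, s) : W d × ℝ) = (y, -s) := by simp
      rw [h3] at h2
      exact h2
  unfold V
  rw [h1, Measure.measure_neg]

end Pool.Agent.Hom3
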